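import Pool.Agent.T9h16.QI.Spec
import Pool.Agent.T9h16.QL.Bias

set_option autoImplicit false

/-!
# (G) the generating function
-/

namespace Pool.Agent.T9h16.QI

open Finset
open Pool.Agent.PC34 (prob withClique labelGraph)
open Pool.Agent.T9h34 (graphInput)
open Pool.Agent.T9h34.P (gr)
open Pool.Agent.T9h34.Q
open Pool.Agent.T9h16.QL

section

variable {n k L : ℕ}

theorem X_eq (k a : ℕ) (lab : Sym2 (Fin n) → Fin L) :
    X k a lab = (numCl k (labelGraph lab a) : ℝ) := by
  classical
  unfold X numCl
  rw [Nat.card_eq_fintype_card, Fintype.card_subtype, card_filter, Nat.cast_sum]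
  rw [← sum_subset (subset_univ (powersetCard k (univ : Finset (Fin n))))]
  · refine sum_congr rfl fun S hS => ?_
    have h := isNClique_iff lab a k S
    have hS' := (mem_powersetCard.1 hS).2
    by_cases h1 : KT S ⊆ low lab a
    · rw [if_pos h1, if_pos (h.2 ⟨hS', h1⟩), Nat.cast_one]
    · rw [if_neg h1, if_neg (fun h2 => h1 (h.1 h2).2), Nat.cast_zero]
  · intro S _ hS
    rw [if_neg, Nat.cast_zero]
    intro h2
    exact hS (mem_powersetCard.2 ⟨subset_univ _, ((isNClique_iff lab a k S).1 h2).1⟩)

open Classical in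
/-- Probabilities over the labels and a random `k`-set. -/
theorem prob_prod (hL : 1 ≤ L) (hk : k ≤ n) (Q : (Sym2 (Fin n) → Fin L) → Finset (Fin n) → Prop) :
    prob (fun x : (Sym2 (Fin n) → Fin L) × {S : Finset (Fin n) // S.card = k} => Q x.1 x.2.1) =
    (∑ S ∈ powersetCard k (univ : Finset (Fin n)), EL n L (fun lab => if Q lab S then 1 else 0)) /
      (n.choose k : ℝ) := by
  have hc : Fintype.card {S : Finset (Fin n) // S.card = k} = n.choose k := by
    rw [Fintype.card_finset_len, Fintype.card_fin]
  have hc0 : (0 : ℝ) < n.choose k := by exact_mod_cast Nat.choose_pos hk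
  have : Nonempty (Fin L) := ⟨⟨0, by omega⟩⟩
  have h0 : (0 : ℝ) < Fintype.card (Sym2 (Fin n) → Fin L) := by
    exact_mod_cast Fintype.card_pos
  unfold Pool.Agent.PC34.prob EL
  rw [Fintype.card_prod, hc, card_filter, Nat.cast_sum]
  have h2 : ∑ x : (Sym2 (Fin n) → Fin L) × {S : Finset (Fin n) // S.card = k},
      ((if Q x.1 x.2.1 then 1 else 0 : ℕ) : ℝ) =
      ∑ S ∈ powersetCard k (univ : Finset (Fin n)), ∑ lab : Sym2 (Fin n) → Fin L,
        if Q lab S then (1 : ℝ) else 0 := by
    rw [Fintype.sum_prod_type_right]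
    symm
    have h5 : ∀ f : Finset (Fin n) → ℝ, ∑ S ∈ powersetCard k (univ : Finset (Fin n)), f S =
        ∑ S : {S : Finset (Fin n) // S.card = k}, f S.1 := fun f =>
      sum_subtype (p := fun S : Finset (Fin n) => S.card = k) _
        (fun S => by simp [mem_powersetCard]) f
    rw [h5]
    refine sum_congr rfl fun S _ => sum_congr rfl fun lab _ => ?_
    push_cast
    rfl
  rw [h2, ← sum_div]
  push_cast
  rw [div_div, mul_comm]

theorem EL_sub' (F G : (Sym2 (Fin n) → Fin L) → ℝ) :
    EL n L F - EL n L G = EL n L (fun x => F x - G x) := by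
  unfold EL
  rw [sum_sub_distrib, sub_div]

theorem abs_EL (F : (Sym2 (Fin n) → Fin L) → ℝ) :
    |EL n L F| ≤ EL n L (fun x => |F x|) := by
  unfold EL
  rw [abs_div, Nat.abs_cast]
  exact div_le_div_of_nonneg_right (abs_sum_le_sum_abs _ _) (Nat.cast_nonneg _)

theorem hasDerivAt_EL (F F' : (Sym2 (Fin n) → Fin L) → ℝ → ℝ) (t : ℝ)
    (h : ∀ x, HasDerivAt (F x) (F' x t) t) :
    HasDerivAt (fun t => EL n L (fun x => F x t)) (EL n L (fun x => F' x t)) t := by
  unfold EL
  exact (HasDerivAt.fun_sum fun x _ => h x).div_const _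

/-- (G) -/
theorem stGen : StGen := by
  classical
  intro n k a L P δ hk ha haL hδ
  set M := meanCl n k ((a : ℝ) / L) with hM
  have hL0 : (0 : ℝ) < L := by exact_mod_cast (by omega : 0 < L)
  have ha0 : (0 : ℝ) < a := by exact_mod_cast ha
  have hM0 : 0 ≤ M := by
    rw [hM]
    unfold meanCl
    positivity
  have hc0 : (0 : ℝ) < n.choose k := by exact_mod_cast Nat.choose_pos hk
  let G : (Sym2 (Fin n) → Fin L) → SimpleGraph (Fin n) := fun lab => labelGraph lab a
  let I : SimpleGraph (Fin n) → ℝ := fun H => if P H then 1 else 0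
  have hI : ∀ H, 0 ≤ I H ∧ I H ≤ 1 := by
    intro H
    by_cases h : P H
    · simp [I, h]
    · simp [I, h]
  let φ : ℝ → ℝ := fun t => EL n L (fun lab => t ^ numCl k (G lab) * I (G lab))
  let A : ℝ → ℝ := fun t => (∑ S ∈ powersetCard k (univ : Finset (Fin n)),
    EL n L (fun lab => t ^ (numCl k (withClique (G lab) S) - 1) * I (withClique (G lab) S))) /
      (n.choose k : ℝ)
  have hφ' : ∀ t, HasDerivAt φ (M * A t) t := by
    intro t
    have h1 : HasDerivAt φ (EL n L (fun lab =>
        (numCl k (G lab) : ℝ) * t ^ (numCl k (G lab) - 1) * I (G lab))) t :=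
      hasDerivAt_EL (fun lab t => t ^ numCl k (G lab) * I (G lab))
        (fun lab t => (numCl k (G lab) : ℝ) * t ^ (numCl k (G lab) - 1) * I (G lab)) t
        (fun lab => (hasDerivAt_pow _ t).mul_const _)
    have h2 : EL n L (fun lab =>
        (numCl k (G lab) : ℝ) * t ^ (numCl k (G lab) - 1) * I (G lab)) = M * A t := by
      have h3 := EL_plant (n := n) (k := k) (L := L) ha haL
        (fun H => t ^ (numCl k H - 1) * I H)
      have h4 : (fun lab : Sym2 (Fin n) → Fin L =>
          (numCl k (G lab) : ℝ) * t ^ (numCl k (G lab) - 1) * I (G lab)) =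
          (fun lab => X k a lab * (t ^ (numCl k (labelGraph lab a) - 1) * I (labelGraph lab a))) := by
        funext lab
        rw [X_eq, mul_assoc]
      rw [h4, h3]
      simp only [A, hM, meanCl]
      field_simp
      rfl
    rw [h2] at h1
    exact h1
  have hAφ : ∀ t, 0 ≤ t → t ≤ 1 → |A t - φ t| ≤ δ := by
    intro t ht0 ht1
    refine le_trans ?_ hδ
    rw [prob_prod (by omega) hk (fun lab S => ¬ (P (withClique (labelGraph lab a) S) ↔
      P (labelGraph lab a))), prob_prod (by omega) hk (fun lab S =>
      numCl k (withClique (labelGraph lab a) S) ≠ numCl k (labelGraph lab a) + 1), ← add_div,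
      ← sum_add_distrib]
    have h1 : φ t = (∑ S ∈ powersetCard k (univ : Finset (Fin n)), φ t) / (n.choose k : ℝ) := by
      rw [sum_const, card_powersetCard, card_univ, Fintype.card_fin, nsmul_eq_mul,
        mul_div_cancel_left₀ _ hc0.ne']
    rw [h1]
    simp only [A]
    rw [← sub_div, ← sum_sub_distrib, abs_div, abs_of_pos hc0]
    refine div_le_div_of_nonneg_right ((abs_sum_le_sum_abs _ _).trans ?_) hc0.le
    refine sum_le_sum fun S _ => ?_
    simp only [φ]
    rw [EL_sub', ← EL_add]
    refine (abs_EL _).trans (EL_mono fun lab => ?_)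
    have p1 : ∀ m : ℕ, 0 ≤ t ^ m ∧ t ^ m ≤ 1 := fun m => ⟨pow_nonneg ht0 _, pow_le_one₀ ht0 ht1⟩
    have i1 := hI (withClique (G lab) S)
    have i2 := hI (G lab)
    have q1 := p1 (numCl k (withClique (G lab) S) - 1)
    have q2 := p1 (numCl k (G lab))
    by_cases hX : numCl k (withClique (G lab) S) = numCl k (G lab) + 1
    · by_cases hP : P (withClique (G lab) S) ↔ P (G lab)
      · have e1 : I (withClique (G lab) S) = I (G lab) := by
          simp only [I]
          by_cases h : P (G lab)
          · rw [if_pos h, if_pos (hP.2 h)]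
          · rw [if_neg h, if_neg (fun h' => h (hP.1 h'))]
        rw [hX, e1, Nat.add_sub_cancel, sub_self, abs_zero]
        split_ifs <;> norm_num
      · have : (1 : ℝ) ≤ (if ¬ (P (withClique (labelGraph lab a) S) ↔ P (labelGraph lab a))
            then 1 else 0) + if numCl k (withClique (labelGraph lab a) S) ≠
              numCl k (labelGraph lab a) + 1 then 1 else 0 := by
          rw [if_pos hP]
          split_ifs <;> norm_num
        refine le_trans ?_ (this.trans_eq (by congr))
        rw [abs_le]
        constructor <;> nlinarith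
    · have : (1 : ℝ) ≤ (if ¬ (P (withClique (labelGraph lab a) S) ↔ P (labelGraph lab a))
          then 1 else 0) + if numCl k (withClique (labelGraph lab a) S) ≠
            numCl k (labelGraph lab a) + 1 then 1 else 0 := by
        rw [if_pos (show numCl k (withClique (labelGraph lab a) S) ≠
              numCl k (labelGraph lab a) + 1 from hX)]
        split_ifs <;> norm_num
      refine le_trans ?_ (this.trans_eq (by congr))
      rw [abs_le]
      constructor <;> nlinarith
  have hδ0 : 0 ≤ δ := (abs_nonneg _).trans (hAφ 0 le_rfl zero_le_one)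
  have hmain := norm_image_sub_le_of_norm_deriv_le_segment_01'
    (f := fun t => Real.exp (-(M * t)) * φ t)
    (f' := fun t => Real.exp (-(M * t)) * (M * (A t - φ t))) (C := M * δ) ?_ ?_
  · have e0 : φ 0 = prob (fun lab : Sym2 (Fin n) → Fin L => P (labelGraph lab a) ∧
        numCl k (labelGraph lab a) = 0) := by
      rw [prob_EL]
      simp only [φ]
      congr 1
      funext lab
      simp only [I]
      by_cases h1 : P (G lab)
      · by_cases h2 : numCl k (G lab) = 0
        · rw [if_pos h1, if_pos ⟨h1, h2⟩, h2, pow_zero, mul_one]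
        · rw [if_pos h1, if_neg (fun h => h2 h.2), zero_pow h2, zero_mul]
      · rw [if_neg h1, if_neg (fun h => h1 h.1), mul_zero]
    have e1 : φ 1 = prob (fun lab : Sym2 (Fin n) → Fin L => P (labelGraph lab a)) := by
      rw [prob_EL]
      simp only [φ]
      congr 1
      funext lab
      simp only [I, one_pow, one_mul]
      rfl
    rw [Real.norm_eq_abs, abs_sub_comm] at hmain
    simp only [mul_zero, neg_zero, Real.exp_zero, one_mul, mul_one, e0, e1] at hmain
    exact hmain
  · intro t _
    have h1 : HasDerivAt (fun t => Real.exp (-(M * t))) (Real.exp (-(M * t)) * (-(M * 1))) t :=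
      ((hasDerivAt_id' t).const_mul M).neg.exp
    have h2 := h1.mul (hφ' t)
    refine (h2.congr_deriv ?_).hasDerivWithinAt
    ring
  · intro t ht
    rw [Real.norm_eq_abs, abs_mul, abs_mul, abs_of_nonneg hM0, abs_of_pos (Real.exp_pos _)]
    have h1 : Real.exp (-(M * t)) ≤ 1 := by
      rw [Real.exp_le_one_iff]
      have := mul_nonneg hM0 ht.1
      linarith
    calc Real.exp (-(M * t)) * (M * |A t - φ t|) ≤ 1 * (M * δ) := by
          apply mul_le_mul h1 _ (by positivity) zero_le_one
          exact mul_le_mul_of_nonneg_left (hAφ t ht.1 ht.2.le) hM0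
      _ = M * δ := one_mul _

end

end Pool.Agent.T9h16.QI
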