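import Pool.Agent.T9h16.QI.Gen

set_option autoImplicit false

/-!
# (Z) Independence
-/

namespace Pool.Agent.T9h16.QI

open Finset Filter Topology
open Pool.Agent.PC34 (prob withClique labelGraph)
open Pool.Agent.T9h34 (graphInput)
open Pool.Agent.HC34 (srcs IsLevel DepthLE)
open Pool.Agent.T9h34.Q
open Pool.Agent.T9h16.QL
open Pool.Agent.T9h34.QE

theorem numCl_eq_zero {n : ℕ} (k : ℕ) (G : SimpleGraph (Fin n)) :
    numCl k G = 0 ↔ ¬ ∃ S : Finset (Fin n), G.IsNClique k S := by
  unfold numCl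
  rw [Finite.card_eq_zero_iff, isEmpty_subtype]
  push Not
  rfl

section

variable {X : Type} [Fintype X]

theorem prob_mono' {A B : X → Prop} (h : ∀ x, A x → B x) : prob A ≤ prob B := by
  classical
  unfold Pool.Agent.PC34.prob
  refine div_le_div_of_nonneg_right ?_ (Nat.cast_nonneg _)
  exact_mod_cast card_le_card (fun x hx => by
    rw [mem_filter] at hx ⊢
    exact ⟨hx.1, h x hx.2⟩)

theorem prob_add' {A B C : X → Prop} (h : ∀ x, C x ↔ (A x ∨ B x)) (h2 : ∀ x, ¬ (A x ∧ B x)) :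
    prob C = prob A + prob B := by
  classical
  unfold Pool.Agent.PC34.prob
  rw [← add_div, ← Nat.cast_add, ← card_union_of_disjoint]
  · congr 3
    ext x
    simp only [mem_filter, mem_union, mem_univ, true_and]
    exact h x
  · rw [disjoint_filter]
    intro x _ hA hB
    exact h2 x ⟨hA, hB⟩

theorem prob_or' {A B C : X → Prop} (h : ∀ x, C x → (A x ∨ B x)) : prob C ≤ prob A + prob B := by
  classical
  unfold Pool.Agent.PC34.prob
  rw [← add_div, ← Nat.cast_add]
  refine div_le_div_of_nonneg_right ?_ (Nat.cast_nonneg _)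
  refine Nat.cast_le.2 (le_trans (card_le_card ?_) (card_union_le _ _))
  intro x hx
  simp only [mem_filter, mem_union, mem_univ, true_and] at hx ⊢
  exact h x hx

theorem prob_nonneg' (A : X → Prop) : 0 ≤ prob A := by
  classical
  unfold Pool.Agent.PC34.prob
  positivity

theorem prob_true' [Nonempty X] : prob (fun _ : X => True) = 1 := by
  classical
  unfold Pool.Agent.PC34.prob
  have : (0 : ℝ) < Fintype.card X := by exact_mod_cast Fintype.card_pos
  simp [this.ne']

theorem prob_le_one' [Nonempty X] (A : X → Prop) : prob A ≤ 1 := by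
  rw [← prob_true' (X := X)]
  exact prob_mono' fun _ _ => trivial

end

/-- The density at the threshold. -/
theorem log_le {n k a L : ℕ} (hn : 4 ≤ n) (hk : 4 ≤ k) (ha : 1 ≤ a) (haL : a ≤ L)
    (hM : 1 / 4 ≤ meanCl n k ((a : ℝ) / L)) :
    Real.log (L / a) ≤ 5 / 2 / ((k : ℝ) - 1) * Real.log n := by
  have ha0 : (0 : ℝ) < a := by exact_mod_cast ha
  have hL0 : (0 : ℝ) < L := by exact_mod_cast (lt_of_lt_of_le ha haL)
  have hn0 : (0 : ℝ) < n := by exact_mod_cast (by omega : 0 < n)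
  have hn4 : (4 : ℝ) ≤ n := by exact_mod_cast hn
  have hk4 : (4 : ℝ) ≤ k := by exact_mod_cast hk
  have hp : (0 : ℝ) < (a : ℝ) / L := by positivity
  have hlogn : 0 < Real.log n := Real.log_pos (by linarith)
  have h1 : (1 : ℝ) / 4 ≤ (n : ℝ) ^ k * ((a : ℝ) / L) ^ k.choose 2 := by
    refine hM.trans ?_
    unfold meanCl
    refine mul_le_mul_of_nonneg_right ?_ (by positivity)
    exact_mod_cast Nat.choose_le_pow n k
  have h2 := Real.log_le_log (by norm_num) h1
  rw [Real.log_mul (by positivity) (by positivity), Real.log_pow, Real.log_pow] at h2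
  have h3 : Real.log ((a : ℝ) / L) = - Real.log (L / a) := by
    rw [← Real.log_inv, inv_div]
  have h4 : Real.log (1 / 4) = - Real.log 4 := by rw [one_div, Real.log_inv]
  have h5 : Real.log 4 ≤ Real.log n := Real.log_le_log (by norm_num) hn4
  rw [h3, h4] at h2
  have h6 : ((k.choose 2 : ℕ) : ℝ) = k * (k - 1) / 2 := Nat.cast_choose_two ℝ k
  rw [h6] at h2
  have hk1 : (0 : ℝ) < (k : ℝ) - 1 := by linarith
  have h7 : (k : ℝ) * (k - 1) / 2 * Real.log (L / a) ≤ (k + 1) * Real.log n := by linarith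
  rw [div_mul_eq_mul_div, le_div_iff₀ hk1]
  have h8 : (k : ℝ) * (Real.log (L / a) * (k - 1)) ≤ k * (5 / 2 * Real.log n) := by
    nlinarith
  exact le_of_mul_le_mul_left h8 (by linarith)

theorem stInd (hF : StFinalP) (hC' : StCompl) (hE : StMid) (hMiss : StMiss) (hG : StGen) :
    StInd := by
  intro δ hδ hδ1
  obtain ⟨n₁, hn₁⟩ := hF δ hδ (by linarith)
  obtain ⟨n₂, hn₂⟩ := hE
  have t1 : ∀ c e : ℝ, 0 < e → Tendsto (fun n : ℕ => c * (n : ℝ) ^ (-e)) atTop (𝓝 0) := by
    intro c e he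
    have h1 := ((tendsto_rpow_neg_atTop he).comp tendsto_natCast_atTop_atTop).const_mul c
    rw [mul_zero] at h1
    exact h1
  have hlim : Tendsto (fun n : ℕ => 144 * (n : ℝ) ^ (-(3 * δ / 10)) +
      160 * (n : ℝ) ^ (-(1 - δ / 5)) + 16 * (n : ℝ) ^ (-(1 / 8 - δ / 5))) atTop (𝓝 0) := by
    have h := ((t1 144 (3 * δ / 10) (by linarith)).add (t1 160 (1 - δ / 5) (by linarith))).add
      (t1 16 (1 / 8 - δ / 5) (by linarith))
    rw [add_zero, add_zero] at h
    exact h
  obtain ⟨n₃, hn₃⟩ :=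
    (hlim.eventually (gt_mem_nhds (show (0 : ℝ) < 1 by norm_num))).exists_forall_of_atTop
  -- `log n ≤ n ^ (δ / 200)`
  have hlog : ∀ᶠ n : ℕ in atTop, Real.log n ≤ (n : ℝ) ^ (δ / 200) := by
    have h1 := (isLittleO_log_rpow_atTop (show (0 : ℝ) < δ / 200 by positivity)).bound
      (show (0 : ℝ) < 1 by norm_num)
    have h2 := tendsto_natCast_atTop_atTop (R := ℝ) |>.eventually h1
    filter_upwards [h2] with n hn
    rw [one_mul, Real.norm_eq_abs, Real.norm_eq_abs,
      abs_of_nonneg (Real.rpow_nonneg (Nat.cast_nonneg n) _)] at hn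
    exact (le_abs_self _).trans hn
  obtain ⟨n₄, hn₄⟩ := hlog.exists_forall_of_atTop
  refine ⟨max (max n₁ n₂) (max n₃ (max n₄ 32)), ?_⟩
  intro n k D a L hn hk hkn hD ha haL hM1 hM2 d C hC hdep hsize hT
  have g1 : n₁ ≤ n := le_trans (le_trans (le_max_left _ _) (le_max_left _ _)) hn
  have g2 : n₂ ≤ n := le_trans (le_trans (le_max_right _ _) (le_max_left _ _)) hn
  have g3 : n₃ ≤ n := le_trans (le_trans (le_max_left _ _) (le_max_right _ _)) hn
  have g4 : n₄ ≤ n := le_trans (le_trans (le_trans (le_max_left _ _) (le_max_right _ _))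
    (le_max_right _ _)) hn
  have g5 : 32 ≤ n := le_trans (le_trans (le_trans (le_max_right _ _) (le_max_right _ _))
    (le_max_right _ _)) hn
  have hn32 : (32 : ℝ) ≤ n := by exact_mod_cast g5
  have hn1 : (1 : ℝ) < n := by linarith
  have hn0 : (0 : ℝ) < n := by linarith
  have hlogn : 0 < Real.log n := Real.log_pos hn1
  -- the size of `k`
  have hk1 : (1 : ℝ) < k := by
    have h1 : (0 : ℝ) < δ ^ 2 * ((k : ℝ) - 1) := lt_of_lt_of_le (by norm_num) hk
    have h2 : (0 : ℝ) < (k : ℝ) - 1 := by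
      by_contra hc
      push Not at hc
      have : δ ^ 2 * ((k : ℝ) - 1) ≤ 0 := mul_nonpos_of_nonneg_of_nonpos (by positivity) hc
      linarith
    linarith
  have hk0 : (0 : ℝ) < (k : ℝ) - 1 := by linarith
  have hδ2 : δ ^ 2 ≤ δ := by nlinarith
  have hδk : (60000 : ℝ) ≤ δ * ((k : ℝ) - 1) :=
    hk.trans (mul_le_mul_of_nonneg_right hδ2 hk0.le)
  have hk2 : (60001 : ℝ) ≤ k := by nlinarith
  have hkN : 60001 ≤ k := by exact_mod_cast hk2
  have hkn1 : (k : ℝ) ≤ n := by
    refine hkn.trans ?_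
    calc (n : ℝ) ^ (δ / 200) ≤ (n : ℝ) ^ (1 : ℝ) :=
          Real.rpow_le_rpow_of_exponent_le hn1.le (by linarith)
      _ = n := Real.rpow_one _
  have hkn2 : k ≤ n := by exact_mod_cast hkn1
  have hk10 : k ^ 10 ≤ n := by
    have h1 : (k : ℝ) ^ 10 ≤ n := by
      calc (k : ℝ) ^ 10 ≤ ((n : ℝ) ^ (δ / 200)) ^ 10 :=
            pow_le_pow_left₀ (Nat.cast_nonneg k) hkn 10
        _ = (n : ℝ) ^ (δ / 200 * (10 : ℕ)) := (Real.rpow_mul_natCast hn0.le _ _).symm
        _ ≤ (n : ℝ) ^ (1 : ℝ) :=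
            Real.rpow_le_rpow_of_exponent_le hn1.le (by push_cast; linarith)
        _ = n := Real.rpow_one _
    exact_mod_cast h1
  obtain ⟨h2a, h2c, -⟩ := hn₂ n k a L g2 (by omega) hk10 ha haL hM1 hM2
  have h2b := log_le (by omega) (by omega) ha haL hM1
  have ha0 : (0 : ℝ) < a := by exact_mod_cast ha
  have hL0 : (0 : ℝ) < L := by exact_mod_cast (lt_of_lt_of_le ha haL)
  have hLa : (0 : ℝ) < L / a := div_pos hL0 ha0
  -- the size bound
  set r : ℝ := δ ^ 2 * ((k : ℝ) - 1) / 60000 with hr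
  have hr1 : 1 ≤ r := by rw [hr, le_div_iff₀ (by norm_num)]; linarith
  have hrk : 3 * r ≤ k := by
    have h1 : δ ^ 2 * ((k : ℝ) - 1) ≤ 1 * ((k : ℝ) - 1) :=
      mul_le_mul_of_nonneg_right (by nlinarith) hk0.le
    have h2 : r ≤ ((k : ℝ) - 1) / 60000 := by
      rw [hr]
      exact div_le_div_of_nonneg_right (by linarith) (by norm_num)
    linarith
  set s : ℕ := ⌊(n : ℝ) ^ r⌋₊ + 2 with hs
  have hnr : (n : ℝ) ≤ (n : ℝ) ^ r := by
    calc (n : ℝ) = (n : ℝ) ^ (1 : ℝ) := (Real.rpow_one _).symm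
      _ ≤ (n : ℝ) ^ r := Real.rpow_le_rpow_of_exponent_le hn1.le hr1
  have hns : n ≤ s := by
    rw [hs]
    have : n ≤ ⌊(n : ℝ) ^ r⌋₊ := Nat.le_floor hnr
    omega
  have hs0 : (0 : ℝ) < s := by
    have : 0 < s := by omega
    exact_mod_cast this
  have hlogs : Real.log s ≤ 6 / 5 * r * Real.log n := by
    rw [← Real.log_rpow hn0]
    apply Real.log_le_log hs0
    have h1 : (s : ℝ) ≤ (n : ℝ) ^ r + 2 := by
      rw [hs]
      push_cast
      have := Nat.floor_le (show (0 : ℝ) ≤ (n : ℝ) ^ r by positivity)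
      linarith
    have h2 : (2 : ℝ) ≤ (n : ℝ) ^ (r / 5) := by
      calc (2 : ℝ) = (32 : ℝ) ^ (1 / 5 : ℝ) := by
            rw [show (32 : ℝ) = 2 ^ (5 : ℝ) by norm_num, ← Real.rpow_mul (by norm_num)]
            norm_num
        _ ≤ (n : ℝ) ^ (1 / 5 : ℝ) := Real.rpow_le_rpow (by norm_num) hn32 (by norm_num)
        _ ≤ (n : ℝ) ^ (r / 5) := Real.rpow_le_rpow_of_exponent_le hn1.le (by linarith)
    calc (s : ℝ) ≤ (n : ℝ) ^ r * 2 := by linarith
      _ ≤ (n : ℝ) ^ r * (n : ℝ) ^ (r / 5) := mul_le_mul_of_nonneg_left h2 (by positivity)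
      _ = (n : ℝ) ^ (6 / 5 * r) := by
        rw [← Real.rpow_add hn0]
        congr 1
        ring
  have hlogs0 : 0 ≤ Real.log s := Real.log_nonneg (by
    have : (1 : ℕ) ≤ s := by omega
    exact_mod_cast this)
  have hcond : ((2 : ℕ) : ℝ) * Real.log s * Real.log (L / a) ≤ δ ^ 2 / 10000 * Real.log n ^ 2 := by
    calc ((2 : ℕ) : ℝ) * Real.log s * Real.log (L / a)
        ≤ ((2 : ℕ) : ℝ) * Real.log s * (5 / 2 / ((k : ℝ) - 1) * Real.log n) :=
          mul_le_mul_of_nonneg_left h2b (by positivity)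
      _ ≤ ((2 : ℕ) : ℝ) * (6 / 5 * r * Real.log n) * (5 / 2 / ((k : ℝ) - 1) * Real.log n) := by
          refine mul_le_mul_of_nonneg_right ?_ (by positivity)
          exact mul_le_mul_of_nonneg_left hlogs (by positivity)
      _ = δ ^ 2 / 10000 * Real.log n ^ 2 := by
          rw [hr]
          push_cast
          field_simp
          ring
  have hcond2 : ((2 : ℕ) : ℝ) * Real.log s ≤ (n : ℝ) ^ (δ / 100) := by
    have h1 : ((2 : ℕ) : ℝ) * Real.log s ≤ k * Real.log n := by
      calc ((2 : ℕ) : ℝ) * Real.log s ≤ ((2 : ℕ) : ℝ) * (6 / 5 * r * Real.log n) :=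
            mul_le_mul_of_nonneg_left hlogs (by positivity)
        _ = (12 / 5 * r) * Real.log n := by push_cast; ring
        _ ≤ k * Real.log n := mul_le_mul_of_nonneg_right (by linarith) hlogn.le
    calc ((2 : ℕ) : ℝ) * Real.log s ≤ k * Real.log n := h1
      _ ≤ (n : ℝ) ^ (δ / 200) * (n : ℝ) ^ (δ / 200) :=
          mul_le_mul hkn (hn₄ n g4) hlogn.le (by positivity)
      _ = (n : ℝ) ^ (δ / 100) := by
          rw [← Real.rpow_add hn0]
          congr 1
          ring
  have hsz0 : C.size + C.numTests + 2 ≤ s := by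
    rw [hs]
    have : C.size + C.numTests ≤ ⌊(n : ℝ) ^ r⌋₊ := Nat.le_floor hsize
    omega
  obtain ⟨C', hC1, hC2, hC3, hC4, hC5⟩ := hC' _ 2 d D C hC hdep
  have key := hn₁ n k 2 s D a L g1 (by omega) hD hns le_rfl ha haL hcond hcond2 d C hC
    (by omega) hdep
  have key' := hn₁ n k 2 s (D + 1) a L g1 (by omega) (by omega) hns le_rfl ha haL hcond hcond2
    _ C' hC1 (by omega) hC4
  have hsqrt : Real.sqrt (L / a - 1) ≤ (n : ℝ) ^ (δ / 2) := by
    calc Real.sqrt ((L : ℝ) / a - 1) ≤ Real.sqrt ((L : ℝ) / a) :=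
          Real.sqrt_le_sqrt (by linarith)
      _ = Real.exp (Real.log ((L : ℝ) / a) / 2) := by
          rw [Real.exp_half, Real.exp_log hLa]
      _ ≤ Real.exp (Real.log n * (δ / 2)) := by
          apply Real.exp_le_exp.2
          have h3 : 5 / 2 / ((k : ℝ) - 1) ≤ δ := by
            rw [div_le_iff₀ hk0]
            linarith
          have h4 : Real.log ((L : ℝ) / a) ≤ δ * Real.log n :=
            h2b.trans (mul_le_mul_of_nonneg_right h3 hlogn.le)
          linarith
      _ = (n : ℝ) ^ (δ / 2) := (Real.rpow_def_of_pos hn0 _).symm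
  have hD1 : (1 : ℝ) ≤ D := by exact_mod_cast hD
  have hkD : (1 : ℝ) ≤ ((k : ℝ) * D) ^ 2 :=
    one_le_pow₀ (one_le_mul_of_one_le_of_one_le hk1.le hD1)
  have hT1 : (2 : ℝ) ^ C.numTests ≤ (n : ℝ) ^ (1 - 2 * δ) := by
    refine le_trans ?_ hT
    exact le_mul_of_one_le_right (by positivity) hkD
  have e1 : 2 ^ C.numTests * (Real.sqrt (L / a - 1) * (((k : ℝ) * D) ^ 2 * (n : ℝ) ^ (δ - 1))) ≤
      (n : ℝ) ^ (-(δ / 2)) := by
    calc 2 ^ C.numTests * (Real.sqrt (L / a - 1) * (((k : ℝ) * D) ^ 2 * (n : ℝ) ^ (δ - 1)))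
        = Real.sqrt (L / a - 1) * ((2 ^ C.numTests * ((k : ℝ) * D) ^ 2) * (n : ℝ) ^ (δ - 1)) := by
          ring
      _ ≤ (n : ℝ) ^ (δ / 2) * ((n : ℝ) ^ (1 - 2 * δ) * (n : ℝ) ^ (δ - 1)) := by
          refine mul_le_mul hsqrt ?_ (by positivity) (by positivity)
          exact mul_le_mul_of_nonneg_right hT (by positivity)
      _ = (n : ℝ) ^ (-(δ / 2)) := by
          rw [← Real.rpow_add hn0, ← Real.rpow_add hn0]
          congr 1
          ring
  have e2 : (2 : ℝ) ^ C.numTests * (n : ℝ) ^ (-2 : ℝ) ≤ (n : ℝ) ^ (-(1 : ℝ)) := by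
    calc (2 : ℝ) ^ C.numTests * (n : ℝ) ^ (-2 : ℝ)
        ≤ (n : ℝ) ^ (1 - 2 * δ) * (n : ℝ) ^ (-2 : ℝ) :=
          mul_le_mul_of_nonneg_right hT1 (by positivity)
      _ = (n : ℝ) ^ (1 - 2 * δ + -2) := (Real.rpow_add hn0 _ _).symm
      _ ≤ (n : ℝ) ^ (-(1 : ℝ)) :=
          Real.rpow_le_rpow_of_exponent_le hn1.le (by linarith)
  set u : ℝ := (n : ℝ) ^ (-(δ / 2)) with hu
  set v : ℝ := (n : ℝ) ^ (-(1 : ℝ)) with hv
  set w : ℝ := (n : ℝ) ^ (-(1 / 8) : ℝ) with hw
  have hu0 : 0 ≤ u := by positivity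
  have hv0 : 0 ≤ v := by positivity
  have hw0 : 0 ≤ w := by positivity
  have key2 : prob (fun x : (Sym2 (Fin n) → Fin L) × {S : Finset (Fin n) // S.card = k} =>
      C.eval (graphInput (withClique (labelGraph x.1 a) x.2.1)) = true ∧
        C.eval (graphInput (labelGraph x.1 a)) = false) ≤ u + v := by
    refine key.trans ?_
    rw [mul_add]
    exact add_le_add e1 e2
  have key2' : prob (fun x : (Sym2 (Fin n) → Fin L) × {S : Finset (Fin n) // S.card = k} =>
      C'.eval (graphInput (withClique (labelGraph x.1 a) x.2.1)) = true ∧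
        C'.eval (graphInput (labelGraph x.1 a)) = false) ≤ 8 * (u + v) := by
    refine key'.trans ?_
    rw [hC3]
    have hDD : ((k : ℝ) * ((D + 1 : ℕ) : ℝ)) ^ 2 ≤ 4 * ((k : ℝ) * D) ^ 2 := by
      have h1 : ((D + 1 : ℕ) : ℝ) ≤ 2 * D := by push_cast; linarith
      calc ((k : ℝ) * ((D + 1 : ℕ) : ℝ)) ^ 2 ≤ ((k : ℝ) * (2 * D)) ^ 2 := by gcongr
        _ = _ := by ring
    have h3 : 2 ^ (C.numTests + 1) * (Real.sqrt (L / a - 1) *
        (((k : ℝ) * ((D + 1 : ℕ) : ℝ)) ^ 2 * (n : ℝ) ^ (δ - 1))) ≤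
        8 * (2 ^ C.numTests * (Real.sqrt (L / a - 1) * (((k : ℝ) * D) ^ 2 * (n : ℝ) ^ (δ - 1)))) := by
      calc 2 ^ (C.numTests + 1) * (Real.sqrt (L / a - 1) *
          (((k : ℝ) * ((D + 1 : ℕ) : ℝ)) ^ 2 * (n : ℝ) ^ (δ - 1)))
          ≤ 2 ^ (C.numTests + 1) * (Real.sqrt (L / a - 1) *
          ((4 * ((k : ℝ) * D) ^ 2) * (n : ℝ) ^ (δ - 1))) := by gcongr
        _ = _ := by ring
    have h4 : (2 : ℝ) ^ (C.numTests + 1) * (n : ℝ) ^ (-2 : ℝ) =
        2 * (2 ^ C.numTests * (n : ℝ) ^ (-2 : ℝ)) := by ring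
    rw [mul_add, h4]
    have h5 := h3.trans (mul_le_mul_of_nonneg_left e1 (by norm_num))
    linarith
  -- the two events
  have hdiff : prob (fun x : (Sym2 (Fin n) → Fin L) × {S : Finset (Fin n) // S.card = k} =>
      ¬ (C.eval (graphInput (withClique (labelGraph x.1 a) x.2.1)) = true ↔
        C.eval (graphInput (labelGraph x.1 a)) = true)) ≤ 9 * (u + v) := by
    have h1 : prob (fun x : (Sym2 (Fin n) → Fin L) × {S : Finset (Fin n) // S.card = k} =>
      ¬ (C.eval (graphInput (withClique (labelGraph x.1 a) x.2.1)) = true ↔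
        C.eval (graphInput (labelGraph x.1 a)) = true)) ≤ _ + _ :=
      prob_or' (A := fun x : (Sym2 (Fin n) → Fin L) × {S : Finset (Fin n) // S.card = k} =>
        C.eval (graphInput (withClique (labelGraph x.1 a) x.2.1)) = true ∧
        C.eval (graphInput (labelGraph x.1 a)) = false)
        (B := fun x => C'.eval (graphInput (withClique (labelGraph x.1 a) x.2.1)) = true ∧
        C'.eval (graphInput (labelGraph x.1 a)) = false) (by
        intro x hx
        rw [hC5, hC5]
        rcases Bool.eq_false_or_eq_true (C.eval (graphInput (withClique (labelGraph x.1 a) x.2.1)))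
          with h1 | h1 <;>
        rcases Bool.eq_false_or_eq_true (C.eval (graphInput (labelGraph x.1 a))) with h2 | h2 <;>
        rw [h1, h2] at hx ⊢ <;> simp_all)
    linarith
  have hmiss : prob (fun x : (Sym2 (Fin n) → Fin L) × {S : Finset (Fin n) // S.card = k} =>
      numCl k (withClique (labelGraph x.1 a) x.2.1) ≠ numCl k (labelGraph x.1 a) + 1) ≤ w + v :=
    (hMiss n k a L hkn2 (by omega) ha haL).trans (add_le_add h2a h2c)
  set δt : ℝ := 9 * (u + v) + (w + v) with hδt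
  have hδt0 : 0 ≤ δt := by positivity
  have hM0 : 0 ≤ meanCl n k ((a : ℝ) / L) := by linarith
  have G1 := hG n k a L (fun H => C.eval (graphInput H) = true) δt hkn2 ha haL
    (add_le_add hdiff hmiss)
  have G2 := hG n k a L (fun _ => True) δt hkn2 ha haL (by
    have h1 : prob (fun x : (Sym2 (Fin n) → Fin L) × {S : Finset (Fin n) // S.card = k} =>
        ¬ (True ↔ True)) = 0 := by
      classical
      unfold Pool.Agent.PC34.prob
      simp
    rw [h1]
    have : 0 ≤ 9 * (u + v) := by positivity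
    linarith)
  have hne : Nonempty (Fin L) := ⟨⟨0, by omega⟩⟩
  rw [prob_true'] at G2
  have hb : meanCl n k ((a : ℝ) / L) * δt ≤ 4 * δt := mul_le_mul_of_nonneg_right hM2 hδt0
  set em : ℝ := Real.exp (-meanCl n k ((a : ℝ) / L)) with hem
  set α : ℝ := prob (fun lab : Sym2 (Fin n) → Fin L =>
    C.eval (graphInput (labelGraph lab a)) = true) with hα
  set q : ℝ := prob (fun lab : Sym2 (Fin n) → Fin L =>
        ¬ ∃ S : Finset (Fin n), (labelGraph lab a).IsNClique k S) with hq
  set y : ℝ := prob (fun lab : Sym2 (Fin n) → Fin L =>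
        ∃ S : Finset (Fin n), (labelGraph lab a).IsNClique k S) with hy
  set β : ℝ := prob (fun lab : Sym2 (Fin n) → Fin L =>
    C.eval (graphInput (labelGraph lab a)) = true ∧ numCl k (labelGraph lab a) = 0) with hβ
  have eq1 : prob (fun lab : Sym2 (Fin n) → Fin L => True ∧ numCl k (labelGraph lab a) = 0) =
      q := by
    rw [hq]
    congr 1
    funext lab
    rw [numCl_eq_zero, true_and]
  rw [eq1, mul_one] at G2
  have hyq : y + q = 1 := by
    rw [← prob_true' (X := Sym2 (Fin n) → Fin L)]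
    exact (prob_add' (A := fun lab : Sym2 (Fin n) → Fin L =>
      ∃ S : Finset (Fin n), (labelGraph lab a).IsNClique k S)
      (B := fun lab : Sym2 (Fin n) → Fin L =>
      ¬ ∃ S : Finset (Fin n), (labelGraph lab a).IsNClique k S)
      (C := fun _ => True) (fun x => by tauto) (fun x h => h.2 h.1)).symm
  have hα0 : 0 ≤ α := prob_nonneg' _
  have hα1 : α ≤ 1 := prob_le_one' _
  have hq0 : 0 ≤ q := prob_nonneg' _
  have hy0 : 0 ≤ y := prob_nonneg' _
  have eqβ : prob (fun lab : Sym2 (Fin n) → Fin L =>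
      C.eval (graphInput (labelGraph lab a)) = true ∧
      ∃ S : Finset (Fin n), (labelGraph lab a).IsNClique k S) = α - β := by
    have := prob_add' (A := fun lab : Sym2 (Fin n) → Fin L =>
      C.eval (graphInput (labelGraph lab a)) = true ∧
      ∃ S : Finset (Fin n), (labelGraph lab a).IsNClique k S)
      (B := fun lab => C.eval (graphInput (labelGraph lab a)) = true ∧
        numCl k (labelGraph lab a) = 0)
      (C := fun lab => C.eval (graphInput (labelGraph lab a)) = true)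
      (fun x => by rw [numCl_eq_zero]; tauto) (fun x => by rw [numCl_eq_zero]; tauto)
    linarith
  have eqη : prob (fun lab : Sym2 (Fin n) → Fin L =>
      ¬ (C.eval (graphInput (labelGraph lab a)) = true ↔
        ∃ S : Finset (Fin n), (labelGraph lab a).IsNClique k S)) = β + (y - (α - β)) := by
    have h1 := prob_add' (A := fun lab : Sym2 (Fin n) → Fin L =>
      C.eval (graphInput (labelGraph lab a)) = true ∧
      ∃ S : Finset (Fin n), (labelGraph lab a).IsNClique k S)
      (B := fun lab => ¬ C.eval (graphInput (labelGraph lab a)) = true ∧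
        ∃ S : Finset (Fin n), (labelGraph lab a).IsNClique k S)
      (C := fun lab => ∃ S : Finset (Fin n), (labelGraph lab a).IsNClique k S)
      (fun x => by tauto) (fun x => by tauto)
    have h2 := prob_add' (A := fun lab : Sym2 (Fin n) → Fin L =>
      C.eval (graphInput (labelGraph lab a)) = true ∧ numCl k (labelGraph lab a) = 0)
      (B := fun lab => ¬ C.eval (graphInput (labelGraph lab a)) = true ∧
        ∃ S : Finset (Fin n), (labelGraph lab a).IsNClique k S)
      (C := fun lab => ¬ (C.eval (graphInput (labelGraph lab a)) = true ↔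
        ∃ S : Finset (Fin n), (labelGraph lab a).IsNClique k S))
      (fun x => by rw [numCl_eq_zero]; tauto) (fun x => by rw [numCl_eq_zero]; tauto)
    rw [h2]
    linarith
  -- the main estimate
  have hmain : |β - α * q| ≤ 8 * δt := by
    have h1 : |β - em * α| ≤ 4 * δt := G1.trans hb
    have h2 : |q - em| ≤ 4 * δt := G2.trans hb
    have h3 : β - α * q = (β - em * α) - α * (q - em) := by ring
    rw [h3]
    calc |(β - em * α) - α * (q - em)| ≤ |β - em * α| + |α * (q - em)| := abs_sub _ _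
      _ ≤ 4 * δt + 1 * (4 * δt) := by
        rw [abs_mul, abs_of_nonneg hα0]
        refine add_le_add h1 (mul_le_mul hα1 h2 (abs_nonneg _) zero_le_one)
      _ = 8 * δt := by ring
  have hfin : 16 * δt ≤ (n : ℝ) ^ (-δ / 5) := by
    have h1 := (hn₃ n g3).le
    have h2 : 16 * δt = (144 * (n : ℝ) ^ (-(3 * δ / 10)) +
      160 * (n : ℝ) ^ (-(1 - δ / 5)) + 16 * (n : ℝ) ^ (-(1 / 8 - δ / 5))) * (n : ℝ) ^ (-δ / 5) := by
      rw [add_mul, add_mul, mul_assoc, mul_assoc, mul_assoc, ← Real.rpow_add hn0,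
        ← Real.rpow_add hn0, ← Real.rpow_add hn0, hδt, hu, hv, hw,
        show -(3 * δ / 10) + -δ / 5 = -(δ / 2) by ring,
        show -(1 - δ / 5) + -δ / 5 = -(1 : ℝ) by ring,
        show -(1 / 8 - δ / 5) + -δ / 5 = -(1 / 8) by ring]
      ring
    rw [h2]
    exact (mul_le_mul_of_nonneg_right h1 (by positivity)).trans (one_mul _).le
  refine ⟨?_, ?_⟩
  · rw [eqβ]
    have h1 : α - β - α * y = -(β - α * q) := by
      have : y = 1 - q := by linarith
      rw [this]
      ring
    rw [h1, abs_neg]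
    linarith
  · rw [eqη]
    have h1 := (abs_le.1 hmain).1
    have hy' : y = 1 - q := by linarith
    have h2 : min y q ≤ α * q + (1 - α) * y := by
      have h3 : min y q ≤ y := min_le_left _ _
      have h4 : min y q ≤ q := min_le_right _ _
      have h5 : 0 ≤ 1 - α := by linarith
      calc min y q = α * min y q + (1 - α) * min y q := by ring
        _ ≤ α * q + (1 - α) * y := add_le_add (mul_le_mul_of_nonneg_left h4 hα0)
          (mul_le_mul_of_nonneg_left h3 h5)
    have h3 : β + (y - (α - β)) = α * q + (1 - α) * y + 2 * (β - α * q) := by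
      rw [hy']
      ring
    rw [h3]
    linarith

end Pool.Agent.T9h16.QI
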