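import Pool.Agent.T9h16.QI.Spec

set_option autoImplicit false

/-!
# Independence for all k up to n ^ (1 / 3 - δ), for the circuits of `StFinalP`
-/

namespace Pool.Agent.T9h16.QI

open Finset
open Pool.Agent.PC34 (prob withClique labelGraph)
open Pool.Agent.T9h34 (graphInput)
open Pool.Agent.HC34 (srcs IsLevel DepthLE)
open Pool.Agent.T9h34.Q
open Pool.Agent.T9h16.QL
open Pool.Agent.T9h34.QE

/-- (E2) As `StMid` (T9h41/QI/Mid), now for all `k ≤ n ^ (1 / 3 - δ)`.  Let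
`x = p ^ ((k - 1) / 2)`, so `M = n.choose k * x ^ k`.  From `1 / 4 ≤ M ≤ 4` and
`(n / k) ^ k ≤ n.choose k ≤ (e * n / k) ^ k` (`e = exp 1`): `k / (5 * n) ≤ x ≤ 2 * k / n`
(`4 ^ (1 / k) ≤ 4 ^ (1 / 3) < 1.6`).

Terms with `2 ≤ j`, `2 * j ≤ k + 1`: `k.choose j ≤ (e * k / j) ^ j`,
`(n - k).choose (k - j) ≤ n.choose k * (k / n) ^ j`, so the term is at most
`M * ((e * k / j) * (k / n) * x ^ (- (j - 1) / (k - 1))) ^ j`, `(j - 1) / (k - 1) ≤ 1 / 2`, at most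
`4 * (C * k ^ (3 / 2) / n ^ (1 / 2)) ^ j ≤ 4 * (C * n ^ (- 3 * δ / 2)) ^ j`.

Terms `j = k - i`, `1 ≤ i`, `2 * i ≤ k`: `k.choose i ≤ (e * k / i) ^ i`,
`(n - k).choose i ≤ (e * n / i) ^ i`, and `p ^ (i * (2 * k - i - 1) / 2) =
(x ^ (2 - (i - 1) / (k - 1))) ^ i`, so the term is at most
`((4 * e ^ 2 * k ^ 3 / (i ^ 2 * n)) * (n / (2 * k)) ^ ((i - 1) / (k - 1))) ^ i`.
If `(i - 1) ≤ δ * (k - 1)`, the base is at most `30 * n ^ (- 3 * δ) * n ^ δ`.  Otherwise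
`i ≥ δ * k / 2` (as `i ≥ 1 + δ * (k - 1)`), and with `(i - 1) / (k - 1) ≤ 1 / 2` the base is at most
`(120 / δ ^ 2) * k ^ (1 / 2) / n ^ (1 / 2) ≤ (120 / δ ^ 2) * n ^ (- 1 / 3)`.
In both cases it is at most `C (δ) * n ^ (- 2 * δ)`. -/
def StMid2 : Prop := ∀ δ : ℝ, 0 < δ → δ ≤ 1 / 6 → ∃ n₀ : ℕ, ∀ n k a L : ℕ, n₀ ≤ n → 3 ≤ k →
  (k : ℝ) ≤ (n : ℝ) ^ (1 / 3 - δ) → 1 ≤ a → a ≤ L →
  1 / 4 ≤ meanCl n k ((a : ℝ) / L) → meanCl n k ((a : ℝ) / L) ≤ 4 →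
  midSum n k ((a : ℝ) / L) + ((a : ℝ) / L) ^ (k.choose 2) ≤ (n : ℝ) ^ (-δ)

/-- (Z2) **Independence**, from `StFinalP`, `StCompl`, `StMid2`, `StMiss`, `StGen`: for all circuits
of `StFinalP`, with `B = 2 ^ T * (√(1 / p - 1) * (k * D) ^ 2 * n ^ (δ - 1) + n ^ (-2))`, the event
that the circuit accepts `G` and the event that `G` has a `k`-clique are independent up to
`150 * B + n ^ (- δ / 2)`. -/
def StInd2 : Prop := ∀ δ : ℝ, 0 < δ → δ ≤ 1 / 6 → ∃ n₀ : ℕ, ∀ n k f s D a L : ℕ, n₀ ≤ n →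
  3 ≤ k → (k : ℝ) ≤ (n : ℝ) ^ (1 / 3 - δ) → 1 ≤ D → n ≤ s → 2 ≤ f → 1 ≤ a → a ≤ L →
  f * Real.log s * Real.log (L / a) ≤ δ ^ 2 / 10000 * Real.log n ^ 2 →
  f * Real.log s ≤ (n : ℝ) ^ (δ / 100) →
  1 / 4 ≤ meanCl n k ((a : ℝ) / L) → meanCl n k ((a : ℝ) / L) ≤ 4 →
  ∀ (d : ℕ) (C : T9h35.RW.Circuit (Fin n × Fin n)), C.FanIn f d →
  C.size + C.numTests + 2 ≤ s → DepthLE C D →
  |prob (fun lab : Sym2 (Fin n) → Fin L => C.eval (graphInput (labelGraph lab a)) = true ∧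
      ∃ S : Finset (Fin n), (labelGraph lab a).IsNClique k S) -
    prob (fun lab : Sym2 (Fin n) → Fin L => C.eval (graphInput (labelGraph lab a)) = true) *
      prob (fun lab : Sym2 (Fin n) → Fin L =>
        ∃ S : Finset (Fin n), (labelGraph lab a).IsNClique k S)| ≤
    150 * (2 ^ C.numTests * (Real.sqrt (L / a - 1) * (((k : ℝ) * D) ^ 2 * (n : ℝ) ^ (δ - 1)) +
      (n : ℝ) ^ (-2 : ℝ))) + (n : ℝ) ^ (-δ / 2) ∧
  min (prob (fun lab : Sym2 (Fin n) → Fin L =>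
        ∃ S : Finset (Fin n), (labelGraph lab a).IsNClique k S))
      (prob (fun lab : Sym2 (Fin n) → Fin L =>
        ¬ ∃ S : Finset (Fin n), (labelGraph lab a).IsNClique k S)) -
    (150 * (2 ^ C.numTests * (Real.sqrt (L / a - 1) * (((k : ℝ) * D) ^ 2 * (n : ℝ) ^ (δ - 1)) +
      (n : ℝ) ^ (-2 : ℝ))) + (n : ℝ) ^ (-δ / 2)) ≤
    prob (fun lab : Sym2 (Fin n) → Fin L =>
      ¬ (C.eval (graphInput (labelGraph lab a)) = true ↔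
        ∃ S : Finset (Fin n), (labelGraph lab a).IsNClique k S))

end Pool.Agent.T9h16.QI
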