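import Pool.Agent.T9h16.QI.Ind
import Pool.Agent.T9h16.QI.Spec2

set_option autoImplicit false

/-!
# (Z2) Independence
-/

namespace Pool.Agent.T9h16.QI

open Finset Filter Topology
open Pool.Agent.PC34 (prob withClique labelGraph)
open Pool.Agent.T9h34 (graphInput)
open Pool.Agent.HC34 (srcs IsLevel DepthLE)
open Pool.Agent.T9h34.Q
open Pool.Agent.T9h16.QL
open Pool.Agent.T9h34.QE

theorem stInd2 (hF : StFinalP) (hC' : StCompl) (hE : StMid2) (hMiss : StMiss) (hG : StGen) :
    StInd2 := by
  intro δ hδ hδ1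
  obtain ⟨n₁, hn₁⟩ := hF δ hδ (by linarith)
  obtain ⟨n₂, hn₂⟩ := hE δ hδ hδ1
  have hlim : Tendsto (fun n : ℕ => 16 * (n : ℝ) ^ (-(δ / 2))) atTop (𝓝 0) := by
    have h1 := ((tendsto_rpow_neg_atTop (half_pos hδ)).comp
      tendsto_natCast_atTop_atTop).const_mul 16
    rw [mul_zero] at h1
    exact h1
  obtain ⟨n₃, hn₃⟩ :=
    (hlim.eventually (gt_mem_nhds (show (0 : ℝ) < 1 by norm_num))).exists_forall_of_atTop
  refine ⟨max (max n₁ n₂) (max n₃ 1), ?_⟩
  intro n k f s D a L hn hk hkn hD hns hf ha haL hc1 hc2 hM1 hM2 d C hC hsz0 hdep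
  have g1 : n₁ ≤ n := le_trans (le_trans (le_max_left _ _) (le_max_left _ _)) hn
  have g2 : n₂ ≤ n := le_trans (le_trans (le_max_right _ _) (le_max_left _ _)) hn
  have g3 : n₃ ≤ n := le_trans (le_trans (le_max_left _ _) (le_max_right _ _)) hn
  have g4 : 1 ≤ n := le_trans (le_trans (le_max_right _ _) (le_max_right _ _)) hn
  have hn1 : (1 : ℝ) ≤ n := by exact_mod_cast g4
  have hn0 : (0 : ℝ) < n := by linarith
  have hkn1 : (k : ℝ) ≤ n := by
    refine hkn.trans ?_
    calc (n : ℝ) ^ (1 / 3 - δ) ≤ (n : ℝ) ^ (1 : ℝ) :=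
          Real.rpow_le_rpow_of_exponent_le hn1 (by linarith)
      _ = n := Real.rpow_one _
  have hkn2 : k ≤ n := by exact_mod_cast hkn1
  have h2a := hn₂ n k a L g2 hk hkn ha haL hM1 hM2
  obtain ⟨C', hC1, hC2, hC3, hC4, hC5⟩ := hC' _ f d D C hC hdep
  have key := hn₁ n k f s D a L g1 (by omega) hD hns hf ha haL hc1 hc2 d C hC
    (by omega) hdep
  have key' := hn₁ n k f s (D + 1) a L g1 (by omega) (by omega) hns hf ha haL hc1 hc2
    _ C' hC1 (by omega) hC4
  have hD1 : (1 : ℝ) ≤ D := by exact_mod_cast hD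
  set B : ℝ := Real.sqrt (L / a - 1) * (((k : ℝ) * D) ^ 2 * (n : ℝ) ^ (δ - 1)) with hB
  set v : ℝ := (n : ℝ) ^ (-2 : ℝ) with hv
  have hB0 : 0 ≤ B := by positivity
  have hv0 : 0 ≤ v := by positivity
  set w : ℝ := (n : ℝ) ^ (-δ) with hw
  have hw0 : 0 ≤ w := by positivity
  have key2 := key
  have key2' : prob (fun x : (Sym2 (Fin n) → Fin L) × {S : Finset (Fin n) // S.card = k} =>
      C'.eval (graphInput (withClique (labelGraph x.1 a) x.2.1)) = true ∧
        C'.eval (graphInput (labelGraph x.1 a)) = false) ≤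
      8 * (2 ^ C.numTests * (B + v)) := by
    refine key'.trans ?_
    rw [hC3]
    have hDD : ((k : ℝ) * ((D + 1 : ℕ) : ℝ)) ^ 2 ≤ 4 * ((k : ℝ) * D) ^ 2 := by
      have h1 : ((D + 1 : ℕ) : ℝ) ≤ 2 * D := by push_cast; linarith
      calc ((k : ℝ) * ((D + 1 : ℕ) : ℝ)) ^ 2 ≤ ((k : ℝ) * (2 * D)) ^ 2 := by gcongr
        _ = _ := by ring
    calc 2 ^ (C.numTests + 1) * (Real.sqrt (L / a - 1) *
        (((k : ℝ) * ((D + 1 : ℕ) : ℝ)) ^ 2 * (n : ℝ) ^ (δ - 1)) + v)
          ≤ 2 ^ (C.numTests + 1) * (Real.sqrt (L / a - 1) *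
        ((4 * ((k : ℝ) * D) ^ 2) * (n : ℝ) ^ (δ - 1)) + 4 * v) := by
            have : v ≤ 4 * v := by linarith
            gcongr
      _ = 8 * (2 ^ C.numTests * (B + v)) := by rw [hB]; ring
  -- the two events
  have hdiff : prob (fun x : (Sym2 (Fin n) → Fin L) × {S : Finset (Fin n) // S.card = k} =>
      ¬ (C.eval (graphInput (withClique (labelGraph x.1 a) x.2.1)) = true ↔
        C.eval (graphInput (labelGraph x.1 a)) = true)) ≤ 9 * (2 ^ C.numTests * (B + v)) := by
    have h1 : prob (fun x : (Sym2 (Fin n) → Fin L) × {S : Finset (Fin n) // S.card = k} =>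
      ¬ (C.eval (graphInput (withClique (labelGraph x.1 a) x.2.1)) = true ↔
        C.eval (graphInput (labelGraph x.1 a)) = true)) ≤ _ + _ :=
      prob_or' (A := fun x : (Sym2 (Fin n) → Fin L) × {S : Finset (Fin n) // S.card = k} =>
        C.eval (graphInput (withClique (labelGraph x.1 a) x.2.1)) = true ∧
        C.eval (graphInput (labelGraph x.1 a)) = false)
        (B := fun x => C'.eval (graphInput (withClique (labelGraph x.1 a) x.2.1)) = true ∧
        C'.eval (graphInput (labelGraph x.1 a)) = false) (by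
        intro x hx
        rw [hC5, hC5]
        rcases Bool.eq_false_or_eq_true (C.eval (graphInput (withClique (labelGraph x.1 a) x.2.1)))
          with h1 | h1 <;>
        rcases Bool.eq_false_or_eq_true (C.eval (graphInput (labelGraph x.1 a))) with h2 | h2 <;>
        rw [h1, h2] at hx ⊢ <;> simp_all)
    linarith
  have hmiss : prob (fun x : (Sym2 (Fin n) → Fin L) × {S : Finset (Fin n) // S.card = k} =>
      numCl k (withClique (labelGraph x.1 a) x.2.1) ≠ numCl k (labelGraph x.1 a) + 1) ≤ w :=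
    (hMiss n k a L hkn2 (by omega) ha haL).trans h2a
  set δt : ℝ := 9 * (2 ^ C.numTests * (B + v)) + w with hδt
  have hδt0 : 0 ≤ δt := by positivity
  have hM0 : 0 ≤ meanCl n k ((a : ℝ) / L) := by linarith
  have G1 := hG n k a L (fun H => C.eval (graphInput H) = true) δt hkn2 ha haL
    (add_le_add hdiff hmiss)
  have G2 := hG n k a L (fun _ => True) δt hkn2 ha haL (by
    have h1 : prob (fun x : (Sym2 (Fin n) → Fin L) × {S : Finset (Fin n) // S.card = k} =>
        ¬ (True ↔ True)) = 0 := by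
      classical
      unfold Pool.Agent.PC34.prob
      simp
    rw [h1]
    have : 0 ≤ 9 * (2 ^ C.numTests * (B + v)) := by positivity
    linarith)
  have hne : Nonempty (Fin L) := ⟨⟨0, by omega⟩⟩
  rw [prob_true'] at G2
  have hb : meanCl n k ((a : ℝ) / L) * δt ≤ 4 * δt := mul_le_mul_of_nonneg_right hM2 hδt0
  set em : ℝ := Real.exp (-meanCl n k ((a : ℝ) / L)) with hem
  set α : ℝ := prob (fun lab : Sym2 (Fin n) → Fin L =>
    C.eval (graphInput (labelGraph lab a)) = true) with hα
  set q : ℝ := prob (fun lab : Sym2 (Fin n) → Fin L =>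
        ¬ ∃ S : Finset (Fin n), (labelGraph lab a).IsNClique k S) with hq
  set y : ℝ := prob (fun lab : Sym2 (Fin n) → Fin L =>
        ∃ S : Finset (Fin n), (labelGraph lab a).IsNClique k S) with hy
  set β : ℝ := prob (fun lab : Sym2 (Fin n) → Fin L =>
    C.eval (graphInput (labelGraph lab a)) = true ∧ numCl k (labelGraph lab a) = 0) with hβ
  have eq1 : prob (fun lab : Sym2 (Fin n) → Fin L => True ∧ numCl k (labelGraph lab a) = 0) =
      q := by
    rw [hq]
    congr 1
    funext lab
    rw [numCl_eq_zero, true_and]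
  rw [eq1, mul_one] at G2
  have hyq : y + q = 1 := by
    rw [← prob_true' (X := Sym2 (Fin n) → Fin L)]
    exact (prob_add' (A := fun lab : Sym2 (Fin n) → Fin L =>
      ∃ S : Finset (Fin n), (labelGraph lab a).IsNClique k S)
      (B := fun lab : Sym2 (Fin n) → Fin L =>
      ¬ ∃ S : Finset (Fin n), (labelGraph lab a).IsNClique k S)
      (C := fun _ => True) (fun x => by tauto) (fun x h => h.2 h.1)).symm
  have hα0 : 0 ≤ α := prob_nonneg' _
  have hα1 : α ≤ 1 := prob_le_one' _
  have hq0 : 0 ≤ q := prob_nonneg' _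
  have hy0 : 0 ≤ y := prob_nonneg' _
  have eqβ : prob (fun lab : Sym2 (Fin n) → Fin L =>
      C.eval (graphInput (labelGraph lab a)) = true ∧
      ∃ S : Finset (Fin n), (labelGraph lab a).IsNClique k S) = α - β := by
    have := prob_add' (A := fun lab : Sym2 (Fin n) → Fin L =>
      C.eval (graphInput (labelGraph lab a)) = true ∧
      ∃ S : Finset (Fin n), (labelGraph lab a).IsNClique k S)
      (B := fun lab => C.eval (graphInput (labelGraph lab a)) = true ∧
        numCl k (labelGraph lab a) = 0)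
      (C := fun lab => C.eval (graphInput (labelGraph lab a)) = true)
      (fun x => by rw [numCl_eq_zero]; tauto) (fun x => by rw [numCl_eq_zero]; tauto)
    linarith
  have eqη : prob (fun lab : Sym2 (Fin n) → Fin L =>
      ¬ (C.eval (graphInput (labelGraph lab a)) = true ↔
        ∃ S : Finset (Fin n), (labelGraph lab a).IsNClique k S)) = β + (y - (α - β)) := by
    have h1 := prob_add' (A := fun lab : Sym2 (Fin n) → Fin L =>
      C.eval (graphInput (labelGraph lab a)) = true ∧
      ∃ S : Finset (Fin n), (labelGraph lab a).IsNClique k S)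
      (B := fun lab => ¬ C.eval (graphInput (labelGraph lab a)) = true ∧
        ∃ S : Finset (Fin n), (labelGraph lab a).IsNClique k S)
      (C := fun lab => ∃ S : Finset (Fin n), (labelGraph lab a).IsNClique k S)
      (fun x => by tauto) (fun x => by tauto)
    have h2 := prob_add' (A := fun lab : Sym2 (Fin n) → Fin L =>
      C.eval (graphInput (labelGraph lab a)) = true ∧ numCl k (labelGraph lab a) = 0)
      (B := fun lab => ¬ C.eval (graphInput (labelGraph lab a)) = true ∧
        ∃ S : Finset (Fin n), (labelGraph lab a).IsNClique k S)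
      (C := fun lab => ¬ (C.eval (graphInput (labelGraph lab a)) = true ↔
        ∃ S : Finset (Fin n), (labelGraph lab a).IsNClique k S))
      (fun x => by rw [numCl_eq_zero]; tauto) (fun x => by rw [numCl_eq_zero]; tauto)
    rw [h2]
    linarith
  -- the main estimate
  have hmain : |β - α * q| ≤ 8 * δt := by
    have h1 : |β - em * α| ≤ 4 * δt := G1.trans hb
    have h2 : |q - em| ≤ 4 * δt := G2.trans hb
    have h3 : β - α * q = (β - em * α) - α * (q - em) := by ring
    rw [h3]
    calc |(β - em * α) - α * (q - em)| ≤ |β - em * α| + |α * (q - em)| := abs_sub _ _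
      _ ≤ 4 * δt + 1 * (4 * δt) := by
        rw [abs_mul, abs_of_nonneg hα0]
        refine add_le_add h1 (mul_le_mul hα1 h2 (abs_nonneg _) zero_le_one)
      _ = 8 * δt := by ring
  have hfin : 16 * δt ≤ 150 * (2 ^ C.numTests * (B + v)) + (n : ℝ) ^ (-δ / 2) := by
    have h1 := (hn₃ n g3).le
    have h2 : 16 * w = 16 * (n : ℝ) ^ (-(δ / 2)) * (n : ℝ) ^ (-δ / 2) := by
      rw [mul_assoc, ← Real.rpow_add hn0, hw]
      congr 2
      ring
    have h3 : 16 * w ≤ (n : ℝ) ^ (-δ / 2) := by
      rw [h2]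
      exact (mul_le_mul_of_nonneg_right h1 (by positivity)).trans (one_mul _).le
    have h4 : 0 ≤ 2 ^ C.numTests * (B + v) := by positivity
    rw [hδt]
    linarith
  refine ⟨?_, ?_⟩
  · rw [eqβ]
    have h1 : α - β - α * y = -(β - α * q) := by
      have : y = 1 - q := by linarith
      rw [this]
      ring
    rw [h1, abs_neg]
    linarith
  · rw [eqη]
    have h1 := (abs_le.1 hmain).1
    have hy' : y = 1 - q := by linarith
    have h2 : min y q ≤ α * q + (1 - α) * y := by
      have h3 : min y q ≤ y := min_le_left _ _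
      have h4 : min y q ≤ q := min_le_right _ _
      have h5 : 0 ≤ 1 - α := by linarith
      calc min y q = α * min y q + (1 - α) * min y q := by ring
        _ ≤ α * q + (1 - α) * y := add_le_add (mul_le_mul_of_nonneg_left h4 hα0)
          (mul_le_mul_of_nonneg_left h3 h5)
    have h3 : β + (y - (α - β)) = α * q + (1 - α) * y + 2 * (β - α * q) := by
      rw [hy']
      ring
    rw [h3]
    linarith

end Pool.Agent.T9h16.QI
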