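import Pool.Agent.T9h16.QI.Search

set_option autoImplicit false

/-!
# Search: circuits do not find a k-clique of G(n, p)
-/

namespace Pool.Agent.T9h16.QI

open Finset
open Pool.Agent.PC34 (prob withClique labelGraph)
open Pool.Agent.T9h34 (graphInput)
open Pool.Agent.T9h34.P (gr)
open Pool.Agent.HC34 (srcs IsLevel DepthLE)
open Pool.Agent.T9h34.Q
open Pool.Agent.T9h16.QL
open Pool.Agent.T9h34.QE

/-- **Search.**  With any decoder, the outputs of `r` circuits do not give a `k`-clique of the
random graph: the probability is at most `p ^ (k.choose 2)`, the probability for a fixed set, plus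
the mean number of the `k`-cliques times the probability that the outputs change when a clique is
planted. -/
def StSearchCl : Prop := ∀ δ : ℝ, 0 < δ → δ ≤ 1 → ∃ n₀ : ℕ, ∀ n k f s D T r a L : ℕ, n₀ ≤ n →
  1 ≤ k → k ≤ n → 1 ≤ D → n ≤ s → 2 ≤ f → 1 ≤ a → a ≤ L →
  f * Real.log s * Real.log (L / a) ≤ δ ^ 2 / 10000 * Real.log n ^ 2 →
  f * Real.log s ≤ (n : ℝ) ^ (δ / 100) →
  ∀ (d : ℕ) (C : Fin r → T9h35.RW.Circuit (Fin n × Fin n)) (dec : (Fin r → Bool) → Finset (Fin n)),
  (∀ i, (C i).FanIn f d) → (∀ i, (C i).size + (C i).numTests + 2 ≤ s) →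
  (∀ i, DepthLE (C i) D) → (∀ i, (C i).numTests ≤ T) →
  prob (fun lab : Sym2 (Fin n) → Fin L =>
    (labelGraph lab a).IsNClique k (dec (fun i => (C i).eval (graphInput (labelGraph lab a))))) ≤
    ((a : ℝ) / L) ^ k.choose 2 + meanCl n k ((a : ℝ) / L) *
    (9 * r * 2 ^ T * (Real.sqrt (L / a - 1) * (((k : ℝ) * D) ^ 2 * (n : ℝ) ^ (δ - 1)) +
      (n : ℝ) ^ (-2 : ℝ)))

open Classical in
/-- Size bias for a set which depends on the graph. -/
theorem prob_find {n k L a : ℕ} (ha : 1 ≤ a) (haL : a ≤ L) (hk : k ≤ n)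
    (g : SimpleGraph (Fin n) → Finset (Fin n)) :
    prob (fun lab : Sym2 (Fin n) → Fin L =>
      (labelGraph lab a).IsNClique k (g (labelGraph lab a))) =
    meanCl n k ((a : ℝ) / L) *
      prob (fun x : (Sym2 (Fin n) → Fin L) × {S : Finset (Fin n) // S.card = k} =>
        g (withClique (labelGraph x.1 a) x.2.1) = x.2.1) := by
  have hc0 : (0 : ℝ) < n.choose k := by exact_mod_cast Nat.choose_pos hk
  rw [prob_prod (by omega) hk (fun lab S => g (withClique (labelGraph lab a) S) = S)]
  have h1 : ∀ lab : Sym2 (Fin n) → Fin L,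
      (if (labelGraph lab a).IsNClique k (g (labelGraph lab a)) then (1 : ℝ) else 0) =
      ∑ S ∈ powersetCard k (univ : Finset (Fin n)),
        if KT S ⊆ low lab a then (if g (gr (low lab a)) = S then 1 else 0) else 0 := by
    intro lab
    rw [← labelGraph_eq]
    by_cases h : (labelGraph lab a).IsNClique k (g (labelGraph lab a))
    · have h2 := (isNClique_iff lab a k (g (labelGraph lab a))).1 h
      rw [if_pos h, sum_eq_single (g (labelGraph lab a))]
      · rw [if_pos h2.2, if_pos rfl]
      · intro S _ hS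
        rw [if_neg (fun h3 : g (labelGraph lab a) = S => hS h3.symm), ite_self]
      · intro h3
        exact absurd (mem_powersetCard.2 ⟨subset_univ _, h2.1⟩) h3
    · rw [if_neg h]
      symm
      refine sum_eq_zero fun S hS => ?_
      by_cases h1 : KT S ⊆ low lab a
      · rw [if_pos h1, if_neg]
        intro h3
        apply h
        rw [h3, isNClique_iff]
        exact ⟨(mem_powersetCard.1 hS).2, h1⟩
      · rw [if_neg h1]
  have e0 : prob (fun lab : Sym2 (Fin n) → Fin L =>
      (labelGraph lab a).IsNClique k (g (labelGraph lab a))) =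
      EL n L (fun lab => ∑ S ∈ powersetCard k (univ : Finset (Fin n)),
        if KT S ⊆ low lab a then (if g (gr (low lab a)) = S then 1 else 0) else 0) := by
    rw [prob_EL]
    exact congrArg (EL n L) (funext fun lab => by convert h1 lab)
  rw [e0, EL_sum]
  have h2 : ∀ S ∈ powersetCard k (univ : Finset (Fin n)),
      EL n L (fun lab => if KT S ⊆ low lab a then
        (if g (gr (low lab a)) = S then (1 : ℝ) else 0) else 0) =
      ((a : ℝ) / L) ^ k.choose 2 *
        EL n L (fun lab => if g (withClique (labelGraph lab a) S) = S then 1 else 0) := by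
    intro S hS
    rw [EL_sub ha haL (KT S) (fun U => if g (gr U) = S then 1 else 0), card_KT,
      (mem_powersetCard.1 hS).2]
    congr 2
    funext lab
    rw [labelGraph_eq, withClique_gr]
  rw [sum_congr rfl h2, ← mul_sum]
  unfold meanCl
  field_simp
  congr!

open Classical in
theorem prob_guess {n k L : ℕ} (hL : 1 ≤ L) (hk : k ≤ n)
    (g : (Sym2 (Fin n) → Fin L) → Finset (Fin n)) :
    prob (fun x : (Sym2 (Fin n) → Fin L) × {S : Finset (Fin n) // S.card = k} =>
        g x.1 = x.2.1) ≤ 1 / (n.choose k : ℝ) := by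
  have hc0 : (0 : ℝ) < n.choose k := by exact_mod_cast Nat.choose_pos hk
  rw [prob_prod hL hk (fun lab S => g lab = S), ← EL_sum]
  refine div_le_div_of_nonneg_right ?_ hc0.le
  refine le_trans (EL_mono (G := fun _ => 1) fun lab => ?_) (EL_one (n := n) hL).le
  have e : (∑ i ∈ powersetCard k (univ : Finset (Fin n)), if g lab = i then (1 : ℝ) else 0) ≤ 1 := by
    rw [sum_boole]
    refine Nat.cast_le_one.2 (card_le_one.2 ?_)
    intro x hx y hy
    rw [mem_filter] at hx hy
    rw [← hx.2, hy.2]
  convert e

theorem stSearchCl (hM : StMulti) : StSearchCl := by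
  intro δ hδ hδ1
  obtain ⟨n₁, hn₁⟩ := hM δ hδ hδ1
  refine ⟨n₁, ?_⟩
  intro n k f s D T r a L hn hk hkn hD hns hf ha haL hc1 hc2 d C dec hC hsz hdep hT
  have key := hn₁ n k f s D T r a L hn hk hD hns hf ha haL hc1 hc2 d C hC hsz hdep hT
  have hc0 : (0 : ℝ) < n.choose k := by exact_mod_cast Nat.choose_pos hkn
  rw [prob_find ha haL hkn (fun H => dec (fun i => (C i).eval (graphInput H)))]
  have h1 := prob_guess (n := n) (k := k) (L := L) (by omega) hkn
    (fun lab => dec (fun i => (C i).eval (graphInput (labelGraph lab a))))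
  have h2 : prob (fun x : (Sym2 (Fin n) → Fin L) × {S : Finset (Fin n) // S.card = k} =>
    dec (fun i => (C i).eval (graphInput (withClique (labelGraph x.1 a) x.2.1))) = x.2.1) ≤
    _ + _ := prob_or' (A := fun x : (Sym2 (Fin n) → Fin L) ×
      {S : Finset (Fin n) // S.card = k} =>
      dec (fun i => (C i).eval (graphInput (labelGraph x.1 a))) = x.2.1)
      (B := fun x => ∃ i, (C i).eval (graphInput (withClique (labelGraph x.1 a) x.2.1)) ≠
        (C i).eval (graphInput (labelGraph x.1 a))) (by
      intro x hx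
      by_cases h : ∃ i, (C i).eval (graphInput (withClique (labelGraph x.1 a) x.2.1)) ≠
        (C i).eval (graphInput (labelGraph x.1 a))
      · exact Or.inr h
      · left
        push Not at h
        have h3 : (fun i => (C i).eval (graphInput (withClique (labelGraph x.1 a) x.2.1))) =
            fun i => (C i).eval (graphInput (labelGraph x.1 a)) := funext h
        rw [h3] at hx
        exact hx)
  have h3 := h2.trans (add_le_add h1 key)
  have hM0 : 0 ≤ meanCl n k ((a : ℝ) / L) := by
    unfold meanCl
    positivity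
  refine (mul_le_mul_of_nonneg_left h3 hM0).trans (le_of_eq ?_)
  rw [mul_add]
  congr 1
  unfold meanCl
  field_simp

end Pool.Agent.T9h16.QI
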