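import Pool.Agent.T9h34.QI.MainI
import Pool.Agent.T9h41.QI.Mid2
import Pool.Agent.T9h16.QI.Ind2
import Pool.Agent.T9h16.QI.SearchCl

set_option autoImplicit false

/-!
# Cliques at the threshold: assembly
-/

namespace Pool.Agent.T9h16.QI

/-- **Independence at the threshold**, for all `k ≤ n ^ (1 / 3 - δ)`. -/
theorem ind2 : StInd2 :=
  stInd2 T9h34.QI.finalP T9h73.QI.stCompl T9h41.QI.stMid2 T9h69.QI.stMiss stGen

/-- **Search.** -/
theorem searchCl : StSearchCl := stSearchCl (stMulti T9h34.QI.finalP T9h73.QI.stCompl)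

end Pool.Agent.T9h16.QI
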