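import Pool.Agent.T9h16.QI.Ind

set_option autoImplicit false

/-!
# Search: circuits do not find a vertex of the planted clique
-/

namespace Pool.Agent.T9h16.QI

open Finset
open Pool.Agent.PC34 (prob withClique labelGraph)
open Pool.Agent.T9h34 (graphInput)
open Pool.Agent.HC34 (srcs IsLevel DepthLE)
open Pool.Agent.T9h34.Q
open Pool.Agent.T9h16.QL
open Pool.Agent.T9h34.QE

/-- The outputs of `r` circuits do not change when the clique is planted. -/
def StMulti : Prop := ∀ δ : ℝ, 0 < δ → δ ≤ 1 → ∃ n₀ : ℕ, ∀ n k f s D T r a L : ℕ, n₀ ≤ n →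
  1 ≤ k → 1 ≤ D → n ≤ s → 2 ≤ f → 1 ≤ a → a ≤ L →
  f * Real.log s * Real.log (L / a) ≤ δ ^ 2 / 10000 * Real.log n ^ 2 →
  f * Real.log s ≤ (n : ℝ) ^ (δ / 100) →
  ∀ (d : ℕ) (C : Fin r → T9h35.RW.Circuit (Fin n × Fin n)), (∀ i, (C i).FanIn f d) →
  (∀ i, (C i).size + (C i).numTests + 2 ≤ s) → (∀ i, DepthLE (C i) D) →
  (∀ i, (C i).numTests ≤ T) →
  prob (fun x : (Sym2 (Fin n) → Fin L) × {S : Finset (Fin n) // S.card = k} =>
    ∃ i, (C i).eval (graphInput (withClique (labelGraph x.1 a) x.2.1)) ≠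
      (C i).eval (graphInput (labelGraph x.1 a))) ≤
    9 * r * 2 ^ T * (Real.sqrt (L / a - 1) * (((k : ℝ) * D) ^ 2 * (n : ℝ) ^ (δ - 1)) +
      (n : ℝ) ^ (-2 : ℝ))

/-- **Search.**  With any decoder, the outputs of `r` circuits do not give a vertex of the planted
clique. -/
def StSearch : Prop := ∀ δ : ℝ, 0 < δ → δ ≤ 1 → ∃ n₀ : ℕ, ∀ n k f s D T r a L : ℕ, n₀ ≤ n →
  1 ≤ k → k ≤ n → 1 ≤ D → n ≤ s → 2 ≤ f → 1 ≤ a → a ≤ L →
  f * Real.log s * Real.log (L / a) ≤ δ ^ 2 / 10000 * Real.log n ^ 2 →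
  f * Real.log s ≤ (n : ℝ) ^ (δ / 100) →
  ∀ (d : ℕ) (C : Fin r → T9h35.RW.Circuit (Fin n × Fin n)) (dec : (Fin r → Bool) → Fin n),
  (∀ i, (C i).FanIn f d) → (∀ i, (C i).size + (C i).numTests + 2 ≤ s) →
  (∀ i, DepthLE (C i) D) → (∀ i, (C i).numTests ≤ T) →
  prob (fun x : (Sym2 (Fin n) → Fin L) × {S : Finset (Fin n) // S.card = k} =>
    dec (fun i => (C i).eval (graphInput (withClique (labelGraph x.1 a) x.2.1))) ∈ x.2.1) ≤
    (k : ℝ) / n +
    9 * r * 2 ^ T * (Real.sqrt (L / a - 1) * (((k : ℝ) * D) ^ 2 * (n : ℝ) ^ (δ - 1)) +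
      (n : ℝ) ^ (-2 : ℝ))

theorem prob_union {X : Type} [Fintype X] {r : ℕ} (A : Fin r → X → Prop) :
    prob (fun x => ∃ i, A i x) ≤ ∑ i, prob (A i) := by
  classical
  have h : ∀ s : Finset (Fin r), prob (fun x => ∃ i ∈ s, A i x) ≤ ∑ i ∈ s, prob (A i) := by
    intro s
    induction s using Finset.induction_on with
    | empty =>
      unfold Pool.Agent.PC34.prob
      simp
    | insert j s hj ih =>
      rw [sum_insert hj]
      refine (prob_or' (A := A j) (B := fun x => ∃ i ∈ s, A i x) ?_).trans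
        (add_le_add le_rfl ih)
      rintro x ⟨i, hi, h⟩
      rcases mem_insert.1 hi with rfl | hi
      · exact Or.inl h
      · exact Or.inr ⟨i, hi, h⟩
  refine le_trans (prob_mono' ?_) (h univ)
  rintro x ⟨i, hi⟩
  exact ⟨i, mem_univ _, hi⟩

theorem stMulti (hF : StFinalP) (hC' : StCompl) : StMulti := by
  intro δ hδ hδ1
  obtain ⟨n₁, hn₁⟩ := hF δ hδ hδ1
  refine ⟨max n₁ 1, ?_⟩
  intro n k f s D T r a L hn hk hD hns hf ha haL hc1 hc2 d C hC hsz hdep hT
  have g1 : n₁ ≤ n := (le_max_left _ _).trans hn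
  have g2 : 1 ≤ n := (le_max_right _ _).trans hn
  have hD1 : (1 : ℝ) ≤ D := by exact_mod_cast hD
  set B : ℝ := Real.sqrt (L / a - 1) * (((k : ℝ) * D) ^ 2 * (n : ℝ) ^ (δ - 1)) with hB
  set v : ℝ := (n : ℝ) ^ (-2 : ℝ) with hv
  have hB0 : 0 ≤ B := by positivity
  have hv0 : 0 ≤ v := by positivity
  refine (prob_union (fun (i : Fin r) (x : (Sym2 (Fin n) → Fin L) ×
    {S : Finset (Fin n) // S.card = k}) =>
    (C i).eval (graphInput (withClique (labelGraph x.1 a) x.2.1)) ≠
      (C i).eval (graphInput (labelGraph x.1 a)))).trans ?_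
  have hone : ∀ i : Fin r, prob (fun x : (Sym2 (Fin n) → Fin L) ×
      {S : Finset (Fin n) // S.card = k} =>
      (C i).eval (graphInput (withClique (labelGraph x.1 a) x.2.1)) ≠
      (C i).eval (graphInput (labelGraph x.1 a))) ≤ 9 * 2 ^ T * (B + v) := by
    intro i
    obtain ⟨C', hC1, hC2, hC3, hC4, hC5⟩ := hC' _ f d D (C i) (hC i) (hdep i)
    have h1 := hsz i
    have key := hn₁ n k f s D a L g1 hk hD hns hf ha haL hc1 hc2 d (C i) (hC i)
      (by omega) (hdep i)
    have key' := hn₁ n k f s (D + 1) a L g1 hk (by omega) hns hf ha haL hc1 hc2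
      _ C' hC1 (by omega) hC4
    have h2 : prob (fun x : (Sym2 (Fin n) → Fin L) × {S : Finset (Fin n) // S.card = k} =>
      (C i).eval (graphInput (withClique (labelGraph x.1 a) x.2.1)) ≠
      (C i).eval (graphInput (labelGraph x.1 a))) ≤ _ + _ :=
      prob_or' (A := fun x : (Sym2 (Fin n) → Fin L) × {S : Finset (Fin n) // S.card = k} =>
        (C i).eval (graphInput (withClique (labelGraph x.1 a) x.2.1)) = true ∧
        (C i).eval (graphInput (labelGraph x.1 a)) = false)
        (B := fun x => C'.eval (graphInput (withClique (labelGraph x.1 a) x.2.1)) = true ∧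
        C'.eval (graphInput (labelGraph x.1 a)) = false) (by
        intro x hx
        rw [hC5, hC5]
        rcases Bool.eq_false_or_eq_true
          ((C i).eval (graphInput (withClique (labelGraph x.1 a) x.2.1))) with h1 | h1 <;>
        rcases Bool.eq_false_or_eq_true ((C i).eval (graphInput (labelGraph x.1 a)))
          with h2 | h2 <;>
        rw [h1, h2] at hx ⊢ <;> simp at hx ⊢)
    have hTi : (2 : ℝ) ^ (C i).numTests ≤ 2 ^ T := pow_le_pow_right₀ (by norm_num) (hT i)
    have hDD : ((k : ℝ) * ((D + 1 : ℕ) : ℝ)) ^ 2 ≤ 4 * ((k : ℝ) * D) ^ 2 := by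
      have h1 : ((D + 1 : ℕ) : ℝ) ≤ 2 * D := by push_cast; linarith
      calc ((k : ℝ) * ((D + 1 : ℕ) : ℝ)) ^ 2 ≤ ((k : ℝ) * (2 * D)) ^ 2 := by gcongr
        _ = _ := by ring
    have k1 : 2 ^ (C i).numTests * (B + v) ≤ 2 ^ T * (B + v) :=
      mul_le_mul_of_nonneg_right hTi (by positivity)
    have k2 : 2 ^ C'.numTests * (Real.sqrt (L / a - 1) *
        (((k : ℝ) * ((D + 1 : ℕ) : ℝ)) ^ 2 * (n : ℝ) ^ (δ - 1)) + v) ≤ 8 * (2 ^ T * (B + v)) := by
      rw [hC3]
      calc 2 ^ ((C i).numTests + 1) * (Real.sqrt (L / a - 1) *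
        (((k : ℝ) * ((D + 1 : ℕ) : ℝ)) ^ 2 * (n : ℝ) ^ (δ - 1)) + v)
          ≤ 2 ^ ((C i).numTests + 1) * (Real.sqrt (L / a - 1) *
        ((4 * ((k : ℝ) * D) ^ 2) * (n : ℝ) ^ (δ - 1)) + 4 * v) := by
            have : v ≤ 4 * v := by linarith
            gcongr
        _ = 8 * (2 ^ (C i).numTests * (B + v)) := by rw [hB]; ring
        _ ≤ 8 * (2 ^ T * (B + v)) := by linarith
    calc _ ≤ _ := h2
      _ ≤ 2 ^ T * (B + v) + 8 * (2 ^ T * (B + v)) := add_le_add (key.trans k1) (key'.trans k2)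
      _ = 9 * 2 ^ T * (B + v) := by ring
  refine (sum_le_sum fun i _ => hone i).trans ?_
  rw [sum_const, card_univ, Fintype.card_fin, nsmul_eq_mul]
  exact le_of_eq (by ring)

/-- The probability that a vertex which depends only on the graph is in the random set. -/
theorem prob_mem {n k L : ℕ} (hL : 1 ≤ L) (hk1 : 1 ≤ k) (hk : k ≤ n)
    (v : (Sym2 (Fin n) → Fin L) → Fin n) :
    prob (fun x : (Sym2 (Fin n) → Fin L) × {S : Finset (Fin n) // S.card = k} =>
      v x.1 ∈ x.2.1) = (k : ℝ) / n := by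
  classical
  rw [prob_prod hL hk (fun lab S => v lab ∈ S), ← EL_sum]
  have h0 : ∀ lab : Sym2 (Fin n) → Fin L,
      (∑ S ∈ powersetCard k (univ : Finset (Fin n)),
        @ite ℝ (v lab ∈ S) (Classical.propDecidable _) 1 0) =
      ∑ S ∈ powersetCard k (univ : Finset (Fin n)), if v lab ∈ S then (1 : ℝ) else 0 := by
    intro lab
    exact sum_congr rfl fun S _ => by congr
  simp only [h0]
  have h1 : ∀ lab : Sym2 (Fin n) → Fin L,
      (∑ S ∈ powersetCard k (univ : Finset (Fin n)), if v lab ∈ S then (1 : ℝ) else 0) =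
      ((n - 1).choose (k - 1) : ℕ) := by
    intro lab
    rw [sum_boole]
    congr 1
    have h2 : (powersetCard k (univ : Finset (Fin n))).filter (fun S => v lab ∈ S) =
        (powersetCard (k - 1) ((univ : Finset (Fin n)).erase (v lab))).image
          (fun S => insert (v lab) S) := by
      ext S
      simp only [mem_filter, mem_powersetCard, mem_image]
      constructor
      · rintro ⟨⟨_, h3⟩, h4⟩
        refine ⟨S.erase (v lab), ⟨erase_subset_erase _ (subset_univ _), ?_⟩, insert_erase h4⟩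
        rw [card_erase_of_mem h4, h3]
      · rintro ⟨U, ⟨h3, h4⟩, rfl⟩
        have h5 : v lab ∉ U := fun h => (mem_erase.1 (h3 h)).1 rfl
        refine ⟨⟨subset_univ _, ?_⟩, mem_insert_self _ _⟩
        rw [card_insert_of_notMem h5, h4]
        omega
    rw [h2, card_image_of_injOn, card_powersetCard, card_erase_of_mem (mem_univ _), card_univ,
      Fintype.card_fin]
    intro U hU W hW h
    have h3 : v lab ∉ U := fun h => (mem_erase.1 ((mem_powersetCard.1 hU).1 h)).1 rfl
    have h4 : v lab ∉ W := fun h => (mem_erase.1 ((mem_powersetCard.1 hW).1 h)).1 rfl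
    have h5 : (insert (v lab) U).erase (v lab) = (insert (v lab) W).erase (v lab) := by
      simp only at h
      rw [h]
    rwa [erase_insert h3, erase_insert h4] at h5
  have h2 : (fun x : Sym2 (Fin n) → Fin L =>
      ∑ S ∈ powersetCard k (univ : Finset (Fin n)), if v x ∈ S then (1 : ℝ) else 0) =
      fun _ => (((n - 1).choose (k - 1) : ℕ) : ℝ) * 1 := by
    funext lab
    rw [h1, mul_one]
  have h3 : EL n L (fun _ => (((n - 1).choose (k - 1) : ℕ) : ℝ) * 1) =
      (((n - 1).choose (k - 1) : ℕ) : ℝ) * EL n L (fun _ => 1) := by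
    unfold EL
    rw [← mul_sum, mul_div_assoc]
  rw [h2, h3, EL_one hL, mul_one]
  have hc0 : (0 : ℝ) < n.choose k := by exact_mod_cast Nat.choose_pos hk
  have hn0 : (0 : ℝ) < n := by exact_mod_cast (by omega : 0 < n)
  rw [div_eq_div_iff hc0.ne' hn0.ne']
  have h4 := Nat.add_one_mul_choose_eq (n - 1) (k - 1)
  rw [Nat.sub_add_cancel (by omega : 1 ≤ n), Nat.sub_add_cancel hk1] at h4
  have h5 : ((n * (n - 1).choose (k - 1) : ℕ) : ℝ) = ((n.choose k * k : ℕ) : ℝ) := by rw [h4]
  push_cast at h5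
  linarith

theorem stSearch (hM : StMulti) : StSearch := by
  intro δ hδ hδ1
  obtain ⟨n₁, hn₁⟩ := hM δ hδ hδ1
  refine ⟨n₁, ?_⟩
  intro n k f s D T r a L hn hk hkn hD hns hf ha haL hc1 hc2 d C dec hC hsz hdep hT
  have key := hn₁ n k f s D T r a L hn hk hD hns hf ha haL hc1 hc2 d C hC hsz hdep hT
  have h1 := prob_mem (n := n) (k := k) (L := L) (by omega) hk hkn
    (fun lab => dec (fun i => (C i).eval (graphInput (labelGraph lab a))))
  have h2 : prob (fun x : (Sym2 (Fin n) → Fin L) × {S : Finset (Fin n) // S.card = k} =>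
    dec (fun i => (C i).eval (graphInput (withClique (labelGraph x.1 a) x.2.1))) ∈ x.2.1) ≤
    _ + _ := prob_or' (A := fun x : (Sym2 (Fin n) → Fin L) ×
      {S : Finset (Fin n) // S.card = k} =>
      dec (fun i => (C i).eval (graphInput (labelGraph x.1 a))) ∈ x.2.1)
      (B := fun x => ∃ i, (C i).eval (graphInput (withClique (labelGraph x.1 a) x.2.1)) ≠
        (C i).eval (graphInput (labelGraph x.1 a))) (by
      intro x hx
      by_cases h : ∃ i, (C i).eval (graphInput (withClique (labelGraph x.1 a) x.2.1)) ≠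
        (C i).eval (graphInput (labelGraph x.1 a))
      · exact Or.inr h
      · left
        push Not at h
        have h3 : (fun i => (C i).eval (graphInput (withClique (labelGraph x.1 a) x.2.1))) =
            fun i => (C i).eval (graphInput (labelGraph x.1 a)) := funext h
        rw [h3] at hx
        exact hx)
  rw [h1] at h2
  exact h2.trans (add_le_add le_rfl key)

end Pool.Agent.T9h16.QI
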