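import Pool.Agent.T9h34.QE.Spec2

set_option autoImplicit false

/-!
# The output of a circuit is asymptotically independent of the existence of a k-clique

At the threshold, for the circuits of `Pool.Agent.T9h34.QE`: the event `C (G) = 1` and the event
that `G` has a `k`-clique are independent up to `n ^ (- δ / 5)`.
-/

namespace Pool.Agent.T9h16.QI

open Finset
open Pool.Agent.PC34 (prob withClique labelGraph)
open Pool.Agent.T9h34 (graphInput)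
open Pool.Agent.T9h34.P (gr)
open Pool.Agent.HC34 (srcs IsLevel DepthLE)
open Pool.Agent.T9h34.Q
open Pool.Agent.T9h16.QL
open Pool.Agent.T9h34.QE

/-- (A1) As `StAllE` (T9h22/QE/AllE), but pointwise: in `prob_main` take
`C (G_0 ∪ K) = 1 ∧ C (G_0) = 0` as the first event and `False` as the second. -/
def StAllP : Prop := ∀ (n L a₀ B d m k f c q D s d' : ℕ)
  (C : T9h35.RW.Circuit (Fin n × Fin n)),
  1 ≤ a₀ → a₀ ≤ L → 0 < n → k ≤ n → C.FanIn f d' → C.size + C.numTests ≤ s → DepthLE C D →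
  2 ≤ f → 2 ≤ c → d = f * c → 1 ≤ m → (d ^ 2 + 1) * (d + 1) ≤ q →
  q * (D + C.numTests + 2) ≤ B → (Fintype.card (Rt B d m) : ℝ) ^ 2 * nu L a₀ ≤ n →
  prob (fun x : (Sym2 (Fin n) → Fin L) × {S : Finset (Fin n) // S.card = k} =>
    C.eval (graphInput (gr (low x.1 a₀ ∪ KT x.2.1))) = true ∧
      C.eval (graphInput (gr (low x.1 a₀))) = false) ≤
  2 ^ C.numTests * (errE (s + 1) q c d (d * m + c) ((L : ℝ) / a₀) ((k : ℝ) / (m + 1))
      (dst L a₀ n (Fintype.card (Rt B d m))) +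
    Fintype.card (Ix B d m) * dst L a₀ n (Fintype.card (Rt B d m)))

/-- (A2) As `StFinalE` (T9h34/QE/Final), pointwise, from (A1) and `StParamsE`. -/
def StFinalP : Prop := ∀ δ : ℝ, 0 < δ → δ ≤ 1 → ∃ n₀ : ℕ, ∀ n k f s D a L : ℕ, n₀ ≤ n →
  1 ≤ k → 1 ≤ D → n ≤ s → 2 ≤ f → 1 ≤ a → a ≤ L →
  f * Real.log s * Real.log (L / a) ≤ δ ^ 2 / 10000 * Real.log n ^ 2 →
  f * Real.log s ≤ (n : ℝ) ^ (δ / 100) →
  ∀ (d : ℕ) (C : T9h35.RW.Circuit (Fin n × Fin n)), C.FanIn f d → C.size + C.numTests ≤ s →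
  DepthLE C D →
  prob (fun x : (Sym2 (Fin n) → Fin L) × {S : Finset (Fin n) // S.card = k} =>
    C.eval (graphInput (withClique (labelGraph x.1 a) x.2.1)) = true ∧
      C.eval (graphInput (labelGraph x.1 a)) = false) ≤
    2 ^ C.numTests * (Real.sqrt (L / a - 1) * (((k : ℝ) * D) ^ 2 * (n : ℝ) ^ (δ - 1)) +
      (n : ℝ) ^ (-2 : ℝ))

/-- (A3) The complement: one more gate, a NOT gate on the test of the output. -/
def StCompl : Prop := ∀ (ι : Type) (f d D : ℕ) (C : T9h35.RW.Circuit ι), C.FanIn f d →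
  DepthLE C D → ∃ C' : T9h35.RW.Circuit ι, C'.FanIn f (max d 1) ∧ C'.size = C.size + 1 ∧
    C'.numTests = C.numTests + 1 ∧ DepthLE C' (D + 1) ∧ ∀ x, C'.eval x = !C.eval x

/-- The number of pairs (clique `S`, other `k`-set with at least two common elements), weighted. -/
noncomputable def midSum (n k : ℕ) (p : ℝ) : ℝ :=
  ∑ j ∈ Ico 2 k, ((k.choose j * (n - k).choose (k - j) : ℕ) : ℝ) * p ^ (k.choose 2 - j.choose 2)

/-- (E) As `StThrE` (T9h41/QE/ThrE): the middle terms (there divided by `M`), for `M ≤ 4`.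
`p ^ (k * (k - 1) / 2) ≥ 1 / (4 * n ^ k)`, and `p ^ (k * (k - 1) / 2) ≤ 4 / n.choose k
≤ 4 * (k / n) ^ k`, so `p ^ ((k - 1) / 2) ≤ 4 * k / n`.  The terms `2 ≤ j`, `2 * j ≤ k + 1`, are at
most `M * (2 * n ^ (-3 / 10)) ^ j`, the terms `j = k - i` at most `(8 * n ^ (-1 / 4)) ^ i`. -/
def StMid : Prop := ∃ n₀ : ℕ, ∀ n k a L : ℕ, n₀ ≤ n → 3 ≤ k → k ^ 10 ≤ n → 1 ≤ a → a ≤ L →
  1 / 4 ≤ meanCl n k ((a : ℝ) / L) → meanCl n k ((a : ℝ) / L) ≤ 4 →
  midSum n k ((a : ℝ) / L) ≤ (n : ℝ) ^ (-(1 / 8) : ℝ) ∧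
  ((a : ℝ) / L) ^ (k.choose 2) ≤ (n : ℝ) ^ (-1 : ℝ) ∧
  Real.log (L / a) ≤ 3 / (k - 1) * Real.log n

/-- The number of `k`-cliques of a graph. -/
noncomputable def numCl {n : ℕ} (k : ℕ) (G : SimpleGraph (Fin n)) : ℕ :=
  Nat.card {S : Finset (Fin n) // G.IsNClique k S}

/-- (M) The planted clique makes exactly one new `k`-clique, unless it was a clique before, or there
is another `k`-set `S'` with at least two elements in `S` which is a clique in `G ∪ K_S`. -/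
def StMiss : Prop := ∀ n k a L : ℕ, k ≤ n → 2 ≤ k → 1 ≤ a → a ≤ L →
  prob (fun x : (Sym2 (Fin n) → Fin L) × {S : Finset (Fin n) // S.card = k} =>
    numCl k (withClique (labelGraph x.1 a) x.2.1) ≠ numCl k (labelGraph x.1 a) + 1) ≤
  midSum n k ((a : ℝ) / L) + ((a : ℝ) / L) ^ (k.choose 2)

/-- (G) With `φ t = E[t ^ X; P]`, `X` the number of the `k`-cliques, `M` its mean:
`φ' t = E[X t ^ (X - 1); P] = M E[t ^ (X (G ∪ K_S) - 1); P (G ∪ K_S)]` (size bias), which is `M φ t`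
up to `M δ`; so `(exp (- M t) φ t)' ≤ M δ`. -/
def StGen : Prop := ∀ (n k a L : ℕ) (P : SimpleGraph (Fin n) → Prop) (δ : ℝ), k ≤ n → 1 ≤ a →
  a ≤ L →
  prob (fun x : (Sym2 (Fin n) → Fin L) × {S : Finset (Fin n) // S.card = k} =>
      ¬ (P (withClique (labelGraph x.1 a) x.2.1) ↔ P (labelGraph x.1 a))) +
    prob (fun x : (Sym2 (Fin n) → Fin L) × {S : Finset (Fin n) // S.card = k} =>
      numCl k (withClique (labelGraph x.1 a) x.2.1) ≠ numCl k (labelGraph x.1 a) + 1) ≤ δ →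
  |prob (fun lab : Sym2 (Fin n) → Fin L => P (labelGraph lab a) ∧ numCl k (labelGraph lab a) = 0) -
    Real.exp (- meanCl n k ((a : ℝ) / L)) *
      prob (fun lab : Sym2 (Fin n) → Fin L => P (labelGraph lab a))| ≤
  meanCl n k ((a : ℝ) / L) * δ

/-- (Z) **Independence**, from (A2), (A3), (E), (M), (G). -/
def StInd : Prop := ∀ δ : ℝ, 0 < δ → δ ≤ 1 / 2 → ∃ n₀ : ℕ, ∀ n k D a L : ℕ, n₀ ≤ n →
  60000 ≤ δ ^ 2 * ((k : ℝ) - 1) → (k : ℝ) ≤ (n : ℝ) ^ (δ / 200) → 1 ≤ D → 1 ≤ a → a ≤ L →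
  1 / 4 ≤ meanCl n k ((a : ℝ) / L) → meanCl n k ((a : ℝ) / L) ≤ 4 →
  ∀ (d : ℕ) (C : T9h35.RW.Circuit (Fin n × Fin n)), C.FanIn 2 d → DepthLE C D →
  ((C.size + C.numTests : ℕ) : ℝ) ≤ (n : ℝ) ^ (δ ^ 2 * ((k : ℝ) - 1) / 60000) →
  2 ^ C.numTests * ((k : ℝ) * D) ^ 2 ≤ (n : ℝ) ^ (1 - 2 * δ) →
  |prob (fun lab : Sym2 (Fin n) → Fin L => C.eval (graphInput (labelGraph lab a)) = true ∧
      ∃ S : Finset (Fin n), (labelGraph lab a).IsNClique k S) -
    prob (fun lab : Sym2 (Fin n) → Fin L => C.eval (graphInput (labelGraph lab a)) = true) *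
      prob (fun lab : Sym2 (Fin n) → Fin L =>
        ∃ S : Finset (Fin n), (labelGraph lab a).IsNClique k S)| ≤ (n : ℝ) ^ (-δ / 5) ∧
  min (prob (fun lab : Sym2 (Fin n) → Fin L =>
        ∃ S : Finset (Fin n), (labelGraph lab a).IsNClique k S))
      (prob (fun lab : Sym2 (Fin n) → Fin L =>
        ¬ ∃ S : Finset (Fin n), (labelGraph lab a).IsNClique k S)) - (n : ℝ) ^ (-δ / 5) ≤
    prob (fun lab : Sym2 (Fin n) → Fin L =>
      ¬ (C.eval (graphInput (labelGraph lab a)) = true ↔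
        ∃ S : Finset (Fin n), (labelGraph lab a).IsNClique k S))

end Pool.Agent.T9h16.QI
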